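import Pool.Agent.LibLRFix.Core

/-!
# Reduction of general actions to countable monoids and separable sets
-/

open Filter Topology Set

namespace Pool.Agent.LRFix

/-- Countable sets closed under countably many binary operations. -/
lemma exists_countable_closed {X ι : Type*} [Countable ι] (op : ι → X → X → X) (x₀ : X) :
    ∃ D : Set X, D.Countable ∧ x₀ ∈ D ∧ ∀ i, ∀ a ∈ D, ∀ b ∈ D, op i a b ∈ D := by
  let G : Set X → Set X := fun A => A ∪ ⋃ i, image2 (op i) A A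
  let D : ℕ → Set X := fun n => G^[n] {x₀}
  have hD : ∀ n, D (n + 1) = G (D n) := fun n => Function.iterate_succ_apply' G n _
  have hmono : Monotone D := monotone_nat_of_le_succ fun n => by
    rw [hD]; exact subset_union_left
  refine ⟨⋃ n, D n, ?_, ?_, ?_⟩
  · refine countable_iUnion fun n => ?_
    induction n with
    | zero => exact countable_singleton x₀
    | succ n ih =>
      rw [hD]
      exact ih.union (countable_iUnion fun i => ih.image2 ih _)
  · exact mem_iUnion.2 ⟨0, rfl⟩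
  · intro i a ha b hb
    obtain ⟨m, hm⟩ := mem_iUnion.1 ha
    obtain ⟨n, hn⟩ := mem_iUnion.1 hb
    refine mem_iUnion.2 ⟨max m n + 1, ?_⟩
    rw [hD]
    right
    exact mem_iUnion.2 ⟨i, mem_image2_of_mem (hmono (le_max_left m n) hm)
      (hmono (le_max_right m n) hn)⟩

variable {E : Type*} [NormedAddCommGroup E] [NormedSpace ℝ E]

/-- The closure of a set closed under rational convex combinations is convex. -/
lemma convex_closure_of_rat {D : Set E}
    (hD : ∀ q : ℚ, ∀ a ∈ D, ∀ b ∈ D,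
      (max 0 (min (q : ℝ) 1)) • a + (1 - max 0 (min (q : ℝ) 1)) • b ∈ D) :
    Convex ℝ (closure D) := by
  have h1 : ∀ q : ℚ, ∀ a ∈ closure D, ∀ b ∈ closure D,
      (max 0 (min (q : ℝ) 1)) • a + (1 - max 0 (min (q : ℝ) 1)) • b ∈ closure D := by
    intro q a ha b hb
    exact map_mem_closure₂ (f := fun a b : E => (max 0 (min (q : ℝ) 1)) • a +
      (1 - max 0 (min (q : ℝ) 1)) • b) (by fun_prop) ha hb (hD q)
  intro a ha b hb s t hs ht hst
  have h2 : Continuous fun r : ℝ => (max 0 (min r 1)) • a + (1 - max 0 (min r 1)) • b := by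
    fun_prop
  have h3 : IsClosed {r : ℝ | (max 0 (min r 1)) • a + (1 - max 0 (min r 1)) • b ∈ closure D} :=
    isClosed_closure.preimage h2
  have h4 : range ((↑) : ℚ → ℝ) ⊆
      {r : ℝ | (max 0 (min r 1)) • a + (1 - max 0 (min r 1)) • b ∈ closure D} := by
    rintro _ ⟨q, rfl⟩
    exact h1 q a ha b hb
  have h5 : s ∈ {r : ℝ | (max 0 (min r 1)) • a + (1 - max 0 (min r 1)) • b ∈ closure D} :=
    h3.closure_subset_iff.2 h4 (Rat.isDenseEmbedding_coe_real.dense s)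
  have h6 : min s 1 = s := min_eq_left (by linarith)
  have h7 : max 0 s = s := max_eq_right hs
  have h8 : t = 1 - s := by linarith
  simp only [mem_ofPred_eq, h6, h7] at h5
  rw [h8]
  exact h5

section

variable {S : Type*} [Monoid S]

theorem fixed_of_centerProp {θ : ℝ} (hθ : θ < 1) (hCP : CenterProp E θ) (hS : LeftRev S)
    {K : Set E} (hK : WeaklyCompact K) (hne : K.Nonempty) (hconv : Convex ℝ K) {f : S → E → E}
    (hf : Act f K) : ∃ x ∈ K, ∀ s, f s x = x := by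
  classical
  obtain ⟨M, hMK, hM, hMinv⟩ := exists_minInv hK hne hconv hf
  have hKM : WeaklyCompact M := hK.mono hMK hM.closed hM.convex
  have hfM : Act f M := hf.mono hMK hMinv
  obtain ⟨c, hc0, hc1, hc2⟩ := exists_radius hS hfM hM hKM.isBounded
  rcases hc0.eq_or_lt with hc0 | hcpos
  · obtain ⟨x, hx, hx'⟩ := fixed_of_radius_zero hS hfM hM (by rw [hc0]; exact hc1)
    exact ⟨x, hMK hx, hx'⟩
  exfalso
  have hdisp : ∀ x : M, ∃ s : S, c / 2 < ‖(x : E) - f s x‖ := by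
    intro x
    obtain ⟨t, ht⟩ := orbit_far hKM hS hfM hM hc2 x.2 x.2 (show c / 2 < c by linarith) 1
    exact ⟨1 * t, ht⟩
  choose σ hσ using hdisp
  choose cc dd hcd using hS
  obtain ⟨x₀, hx₀⟩ := hM.nonempty
  let op : (Fin 4 ⊕ ℚ) → (S × M) → (S × M) → (S × M) := fun i a b =>
    match i with
    | Sum.inl 0 => (a.1 * b.1, ⟨f a.1 b.2, hMinv _ _ b.2.2⟩)
    | Sum.inl 1 => (cc a.1 b.1, a.2)
    | Sum.inl 2 => (dd a.1 b.1, a.2)
    | Sum.inl 3 => (σ a.2, a.2)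
    | Sum.inr q => (a.1, ⟨(max 0 (min (q : ℝ) 1)) • (a.2 : E) +
        (1 - max 0 (min (q : ℝ) 1)) • (b.2 : E), hM.convex a.2.2 b.2.2 (le_max_left _ _)
          (by
            have : max 0 (min (q : ℝ) 1) ≤ 1 := max_le zero_le_one (min_le_right _ _)
            linarith) (by ring)⟩)
  obtain ⟨D, hDc, hD0, hD⟩ := exists_countable_closed op ((1 : S), (⟨x₀, hx₀⟩ : M))
  let T : Submonoid S :=
    { carrier := Prod.fst '' D
      mul_mem' := by
        rintro _ _ ⟨a, ha, rfl⟩ ⟨b, hb, rfl⟩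
        exact ⟨_, hD (Sum.inl 0) a ha b hb, rfl⟩
      one_mem' := ⟨_, hD0, rfl⟩ }
  have hTc : Countable T := (hDc.image Prod.fst).to_subtype
  have hT : LeftRev T := by
    rintro ⟨_, a, ha, rfl⟩ ⟨_, b, hb, rfl⟩
    refine ⟨⟨cc a.1 b.1, _, hD (Sum.inl 1) a ha b hb, rfl⟩,
      ⟨dd a.1 b.1, _, hD (Sum.inl 2) a ha b hb, rfl⟩, ?_⟩
    exact Subtype.ext (hcd a.1 b.1)
  let D' : Set E := (fun a : S × M => (a.2 : E)) '' D
  have hD'M : D' ⊆ M := by
    rintro _ ⟨a, -, rfl⟩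
    exact a.2.2
  set K₀ : Set E := closure D' with hK₀
  have hK₀M : K₀ ⊆ M := closure_minimal hD'M hM.closed
  have hK₀conv : Convex ℝ K₀ := by
    apply convex_closure_of_rat
    rintro q _ ⟨a, ha, rfl⟩ _ ⟨b, hb, rfl⟩
    exact ⟨_, hD (Sum.inr q) a ha b hb, rfl⟩
  have hK₀sep : TopologicalSpace.IsSeparable K₀ :=
    (hDc.image _).isSeparable.closure
  have hK₀wk : WeaklyCompact K₀ := hKM.mono hK₀M isClosed_closure hK₀conv
  have hK₀ne : K₀.Nonempty := ⟨x₀, subset_closure ⟨_, hD0, rfl⟩⟩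
  have hK₀inv : ∀ s : T, ∀ x ∈ K₀, f s x ∈ K₀ := by
    rintro ⟨_, a, ha, rfl⟩ x hx
    rw [hK₀, Metric.mem_closure_iff] at hx ⊢
    intro ε hε
    obtain ⟨_, ⟨b, hb, rfl⟩, hxb⟩ := hx ε hε
    refine ⟨_, ⟨_, hD (Sum.inl 0) a ha b hb, rfl⟩, ?_⟩
    refine lt_of_le_of_lt ?_ hxb
    rw [dist_eq_norm, dist_eq_norm]
    have hxM : x ∈ M := by
      apply hK₀M
      rw [hK₀, Metric.mem_closure_iff]
      exact hx
    exact hfM.ne a.1 x hxM b.2 b.2.2
  have hf₀ : Act (fun s : T => f s) K₀ :=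
    ⟨hK₀inv, fun x hx => hfM.one x (hK₀M hx),
      fun s t x hx => hfM.mul s t x (hK₀M hx),
      fun s x hx y hy => hfM.ne s x (hK₀M hx) y (hK₀M hy)⟩
  obtain ⟨M', hM'K, hM', hM'inv⟩ := exists_minInv hK₀wk hK₀ne hK₀conv hf₀
  obtain ⟨x, hx, hxfix⟩ := core hθ hCP hT (hK₀wk.mono hM'K hM'.closed hM'.convex)
    (hK₀sep.mono hM'K) (hf₀.mono hM'K hM'inv) hM'
  have hxcl : x ∈ closure D' := hM'K hx
  rw [Metric.mem_closure_iff] at hxcl
  obtain ⟨_, ⟨a, ha, rfl⟩, hxa⟩ := hxcl (c / 8) (by linarith)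
  rw [dist_eq_norm] at hxa
  have h1 := hσ a.2
  have h2 := hxfix ⟨σ a.2, _, hD (Sum.inl 3) a ha a ha, rfl⟩
  have h3 : ‖f (σ a.2) x - f (σ a.2) a.2‖ ≤ ‖x - a.2‖ :=
    hfM.ne _ x (hK₀M (hM'K hx)) _ a.2.2
  have h2' : f (σ a.2) x = x := h2
  rw [h2'] at h3
  have h4 : ‖(a.2 : E) - f (σ a.2) a.2‖ ≤ ‖x - f (σ a.2) a.2‖ + ‖x - a.2‖ := by
    calc ‖(a.2 : E) - f (σ a.2) a.2‖ = ‖(x - f (σ a.2) a.2) - (x - a.2)‖ := by congr 1; abel
      _ ≤ _ := norm_sub_le _ _
  linarith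

end

lemma withOne_cases {S : Type*} (s : WithOne S) : s = 1 ∨ ∃ t : S, s = t := by
  by_cases h : s = 1
  · exact Or.inl h
  · obtain ⟨t, ht⟩ := WithOne.ne_one_iff_exists.1 h
    exact Or.inr ⟨t, ht.symm⟩

/-- The semigroup version. -/
theorem fixed_of_centerProp' {θ : ℝ} (hθ : θ < 1) (hCP : CenterProp E θ) {S : Type*}
    [Semigroup S] (hS : LeftRev S) {K : Set E} (hK : WeaklyCompact K) (hne : K.Nonempty)
    (hconv : Convex ℝ K) (f : S → K → K) (hmul : ∀ s t x, f (s * t) x = f s (f t x))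
    (hfne : ∀ s x y, ‖(f s x : E) - f s y‖ ≤ ‖(x : E) - y‖) :
    ∃ x : K, ∀ s, f s x = x := by
  classical
  let g : WithOne S → E → E := fun s y =>
    if hy : y ∈ K then (match s with
      | none => y
      | some s => (f s ⟨y, hy⟩ : E)) else y
  have hg1 : ∀ y, g 1 y = y := by
    intro y
    by_cases hy : y ∈ K
    · simp only [g, hy, dif_pos]
    · simp only [g, hy, dif_neg, not_false_eq_true]
  have hgs : ∀ (s : S) (y : K), g (s : WithOne S) y = f s y := by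
    intro s y
    have hy : (y : E) ∈ K := y.2
    change (if hy : (y : E) ∈ K then (f s ⟨y, hy⟩ : E) else y) = f s y
    rw [dif_pos hy]
  have hgact : Act g K := by
    refine ⟨?_, fun x _ => hg1 x, ?_, ?_⟩
    · intro s y hy
      rcases withOne_cases s with rfl | ⟨s, rfl⟩
      · rw [hg1]; exact hy
      · rw [hgs s ⟨y, hy⟩]; exact (f s ⟨y, hy⟩).2
    · intro s t y hy
      rcases withOne_cases s with rfl | ⟨s, rfl⟩
      · rw [one_mul, hg1]
      · rcases withOne_cases t with rfl | ⟨t, rfl⟩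
        · rw [mul_one, hg1]
        · rw [← WithOne.coe_mul, hgs t ⟨y, hy⟩, hgs s, hgs (s * t) ⟨y, hy⟩, hmul]
    · intro s x hx y hy
      rcases withOne_cases s with rfl | ⟨s, rfl⟩
      · rw [hg1, hg1]
      · rw [hgs s ⟨x, hx⟩, hgs s ⟨y, hy⟩]; exact hfne s ⟨x, hx⟩ ⟨y, hy⟩
  have hS' : LeftRev (WithOne S) := by
    intro a b
    rcases withOne_cases a with rfl | ⟨a, rfl⟩
    · exact ⟨b, 1, by rw [one_mul, mul_one]⟩
    · rcases withOne_cases b with rfl | ⟨b, rfl⟩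
      · exact ⟨1, a, by rw [one_mul, mul_one]⟩
      · obtain ⟨c, d, hcd⟩ := hS a b
        exact ⟨c, d, by rw [← WithOne.coe_mul, ← WithOne.coe_mul, hcd]⟩
  obtain ⟨x, hx, hfix⟩ := fixed_of_centerProp hθ hCP hS' hK hne hconv hgact
  refine ⟨⟨x, hx⟩, fun s => Subtype.ext ?_⟩
  rw [← hgs s ⟨x, hx⟩]
  exact hfix s

end Pool.Agent.LRFix
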