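import Mathlib

/-!
# Weakly compact convex sets and nonexpansive actions: basic facts
-/

open Filter Topology Set

namespace Pool.Agent.LRFix

set_option linter.unusedSectionVars false

variable {E : Type*} [NormedAddCommGroup E] [NormedSpace ℝ E]

/-- The set `K` is compact in the weak topology of `E`. -/
def WeaklyCompact (K : Set E) : Prop := IsCompact (toWeakSpace ℝ E '' K)

/-- The set `K` with the topology induced by the weak topology of `E`. -/
def KW (K : Set E) : Type _ := K

variable {K : Set E}

/-- The inclusion of `KW K` in `E`. -/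
def KW.val (x : KW K) : E := Subtype.val (p := fun y => y ∈ K) x

/-- Constructor for `KW K`. -/
def KW.mk (x : E) (hx : x ∈ K) : KW K := ⟨x, hx⟩

@[simp] lemma KW.val_mk (x : E) (hx : x ∈ K) : (KW.mk x hx).val = x := rfl

lemma KW.mem (x : KW K) : x.val ∈ K := Subtype.property (p := fun y => y ∈ K) x

lemma KW.ext {x y : KW K} (h : x.val = y.val) : x = y :=
  Subtype.ext (p := fun y => y ∈ K) h

/-- The inclusion of `KW K` in the weak space. -/
noncomputable def KW.toW (x : KW K) : WeakSpace ℝ E := toWeakSpace ℝ E x.val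

noncomputable instance : TopologicalSpace (KW K) :=
  TopologicalSpace.induced (KW.toW (K := K)) inferInstance

lemma KW.inducing : IsInducing (KW.toW (K := K)) := ⟨rfl⟩

lemma KW.toW_injective : Function.Injective (KW.toW (K := K)) := by
  intro x y h
  exact KW.ext ((toWeakSpace ℝ E).injective h)

lemma KW.continuous_toW : Continuous (KW.toW (K := K)) := continuous_induced_dom

instance : T2Space (KW K) := T2Space.of_injective_continuous KW.toW_injective KW.continuous_toW

lemma KW.compactSpace (hK : WeaklyCompact K) : CompactSpace (KW K) := by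
  refine ⟨?_⟩
  rw [KW.inducing.isCompact_iff]
  have : (KW.toW (K := K)) '' univ = toWeakSpace ℝ E '' K := by
    ext y
    constructor
    · rintro ⟨x, -, rfl⟩
      exact ⟨x.val, x.mem, rfl⟩
    · rintro ⟨x, hx, rfl⟩
      exact ⟨KW.mk x hx, trivial, rfl⟩
  rw [this]
  exact hK

lemma KW.continuous_eval (φ : E →L[ℝ] ℝ) : Continuous (fun x : KW K => φ x.val) := by
  have h : Continuous (fun x : WeakSpace ℝ E => φ ((toWeakSpace ℝ E).symm x)) := by
    exact WeakBilin.eval_continuous (topDualPairing ℝ E).flip φ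
  exact h.comp KW.continuous_toW

lemma KW.tendsto_iff {α : Type*} {l : Filter α} {u : α → KW K} {x : KW K} :
    Tendsto u l (𝓝 x) ↔ ∀ φ : E →L[ℝ] ℝ, Tendsto (fun a => φ (u a).val) l (𝓝 (φ x.val)) := by
  constructor
  · intro h φ
    exact ((KW.continuous_eval φ).tendsto x).comp h
  · intro h
    rw [KW.inducing.tendsto_nhds_iff]
    refine (WeakBilin.tendsto_iff_forall_eval_tendsto (topDualPairing ℝ E).flip ?_).2 ?_
    · intro a b hab
      have h1 : ∀ φ : E →L[ℝ] ℝ, φ ((toWeakSpace ℝ E).symm a) = φ ((toWeakSpace ℝ E).symm b) := by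
        intro φ
        exact congrArg (fun f => f φ) hab
      have h2 : (toWeakSpace ℝ E).symm a - (toWeakSpace ℝ E).symm b = 0 := by
        obtain ⟨g, hg1, hg2⟩ := exists_dual_vector'' ℝ
          ((toWeakSpace ℝ E).symm a - (toWeakSpace ℝ E).symm b)
        rw [map_sub, h1 g, sub_self] at hg2
        have : ‖(toWeakSpace ℝ E).symm a - (toWeakSpace ℝ E).symm b‖ = 0 := by
          exact_mod_cast hg2.symm
        exact norm_eq_zero.1 this
      exact (toWeakSpace ℝ E).symm.injective (sub_eq_zero.1 h2)
    · intro φ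
      exact h φ

/-- Norm closed balls are weakly closed. -/
lemma KW.isClosed_ball (v : E) (r : ℝ) : IsClosed {x : KW K | ‖x.val - v‖ ≤ r} := by
  have h : {x : KW K | ‖x.val - v‖ ≤ r} =
      ⋂ φ : {φ : E →L[ℝ] ℝ // ‖φ‖ ≤ 1}, {x : KW K | φ.1 x.val ≤ φ.1 v + r} := by
    ext x
    simp only [mem_ofPred_eq, mem_iInter]
    constructor
    · rintro hx ⟨φ, hφ⟩
      have h1 : φ (x.val - v) ≤ ‖x.val - v‖ := by
        calc φ (x.val - v) ≤ ‖φ (x.val - v)‖ := le_abs_self _
          _ ≤ ‖φ‖ * ‖x.val - v‖ := φ.le_opNorm _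
          _ ≤ 1 * ‖x.val - v‖ := by gcongr
          _ = _ := one_mul _
      rw [map_sub] at h1
      simp only
      linarith
    · intro hx
      obtain ⟨g, hg1, hg2⟩ := exists_dual_vector'' ℝ (x.val - v)
      have h1 := hx ⟨g, hg1⟩
      simp only at h1
      rw [map_sub] at hg2
      have : g x.val - g v = ‖x.val - v‖ := by exact_mod_cast hg2
      linarith
  rw [h]
  refine isClosed_iInter fun φ => ?_
  exact isClosed_le (KW.continuous_eval φ.1) continuous_const

end Pool.Agent.LRFix
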