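import Pool.Agent.LibLRFix.Geo

/-!
# The space `c₀(Γ)` satisfies the coefficient condition
-/

open Filter Topology Set
open scoped ZeroAtInfty

namespace Pool.Agent.LRFix

variable {Γ : Type*} [TopologicalSpace Γ]

lemma c0_norm_apply_le (f : C₀(Γ, ℝ)) (x : Γ) : |f x| ≤ ‖f‖ := by
  rw [← ZeroAtInftyContinuousMap.norm_toBCF_eq_norm]
  exact f.toBCF.norm_coe_le_norm x

lemma c0_norm_le (f : C₀(Γ, ℝ)) {r : ℝ} (hr : 0 ≤ r) (h : ∀ x, |f x| ≤ r) : ‖f‖ ≤ r := by
  rw [← ZeroAtInftyContinuousMap.norm_toBCF_eq_norm]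
  exact (BoundedContinuousFunction.norm_le hr).2 h

/-- Evaluation at a point as a continuous functional. -/
noncomputable def c0Eval (x : Γ) : C₀(Γ, ℝ) →L[ℝ] ℝ :=
  LinearMap.mkContinuous
    { toFun := fun f => f x
      map_add' := fun _ _ => rfl
      map_smul' := fun _ _ => rfl } 1 (fun f => by
        rw [one_mul]
        exact c0_norm_apply_le f x)

@[simp] lemma c0Eval_apply (x : Γ) (f : C₀(Γ, ℝ)) : c0Eval x f = f x := rfl

theorem smallCoeff_c0 [DiscreteTopology Γ] : SmallCoeff C₀(Γ, ℝ) (1 / 2) (1 / 2) := by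
  intro u v hu huu hv
  have hux : ∀ x, Tendsto (fun n => u n x) atTop (𝓝 0) := fun x => hu (c0Eval x)
  have hun : ∀ n x, |u n x| ≤ 1 / 2 := by
    intro n x
    have h1 : Tendsto (fun m => |u n x - u m x|) atTop (𝓝 |u n x - 0|) :=
      ((hux x).const_sub (u n x)).abs
    rw [sub_zero] at h1
    refine le_of_tendsto h1 (Eventually.of_forall fun m => ?_)
    exact (c0_norm_apply_le (u n - u m) x).trans (huu n m)
  have hv' : ∀ x, |v x| ≤ 1 / 2 := fun x => (c0_norm_apply_le v x).trans (by linarith)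
  refine le_of_forall_pos_le_add fun ε hε => ?_
  have hfin : {x : Γ | ε ≤ |v x|}.Finite := by
    have h1 := v.zero_at_infty'
    have h2 : ∀ᶠ x in cocompact Γ, |v x| < ε := by
      have h3 : Tendsto (fun x => |v x|) (cocompact Γ) (𝓝 |0|) := Tendsto.abs h1
      rw [abs_zero] at h3
      exact h3.eventually (gt_mem_nhds hε)
    rw [cocompact_eq_cofinite] at h2
    have h4 := h2
    rw [Filter.eventually_cofinite] at h4
    refine h4.subset fun x hx => ?_
    simp only [mem_ofPred_eq, not_lt] at hx ⊢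
    exact hx
  have h1 : ∀ᶠ n in atTop, ∀ x ∈ {x : Γ | ε ≤ |v x|}, |u n x| ≤ ε := by
    rw [Filter.eventually_all_finite hfin]
    intro x _
    have h3 : Tendsto (fun n => |u n x|) atTop (𝓝 |0|) := (hux x).abs
    rw [abs_zero] at h3
    exact (h3.eventually (gt_mem_nhds hε)).mono fun n hn => hn.le
  have h2 : ∀ᶠ n in atTop, ‖u n + v‖ ≤ 1 / 2 + ε := by
    filter_upwards [h1] with n hn
    refine c0_norm_le _ (by linarith) fun x => ?_
    have h3 : |(u n + v) x| ≤ |u n x| + |v x| := abs_add_le _ _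
    by_cases hx : ε ≤ |v x|
    · have h4 := hn x hx
      linarith [hv' x]
    · push Not at hx
      linarith [hun n x]
  exact liminf_le_of_frequently_le h2.frequently
    (isBoundedUnder_of ⟨0, fun n => norm_nonneg _⟩)

end Pool.Agent.LRFix
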