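import Mathlib

/-!
# Minimal closed invariant sets and visits to sets of a closed cover
-/

open Filter Topology Set

namespace Pool.Agent.LRFix

variable {Y : Type*} [TopologicalSpace Y] {ι : Type*}

/-- Iteration along a word. -/
def it (σ : ι → Y → Y) : List ι → Y → Y
  | [], y => y
  | j :: w, y => it σ w (σ j y)

lemma it_continuous {σ : ι → Y → Y} (hσ : ∀ j, Continuous (σ j)) :
    ∀ w : List ι, Continuous (it σ w) := by
  intro w
  induction w with
  | nil => exact continuous_id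
  | cons j w ih => exact ih.comp (hσ j)

lemma it_mem {σ : ι → Y → Y} {A : Set Y} (hA : ∀ j, ∀ y ∈ A, σ j y ∈ A) :
    ∀ (w : List ι), ∀ y ∈ A, it σ w y ∈ A := by
  intro w
  induction w with
  | nil => intro y hy; exact hy
  | cons j w ih => intro y hy; exact ih _ (hA j y hy)

lemma it_snoc {σ : ι → Y → Y} : ∀ (w : List ι) (j : ι) (y : Y),
    it σ (w ++ [j]) y = σ j (it σ w y) := by
  intro w
  induction w with
  | nil => intro j y; rfl
  | cons i w ih => intro j y; exact ih j (σ i y)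

lemma exists_minimal_closed [CompactSpace Y] (σ : ι → Y → Y) {Z : Set Y} (hZne : Z.Nonempty)
    (hZcl : IsClosed Z) (hZ : ∀ j, ∀ y ∈ Z, σ j y ∈ Z) :
    ∃ A ⊆ Z, A.Nonempty ∧ IsClosed A ∧ (∀ j, ∀ y ∈ A, σ j y ∈ A) ∧
      ∀ B ⊆ A, B.Nonempty → IsClosed B → (∀ j, ∀ y ∈ B, σ j y ∈ B) → B = A := by
  let F : Set (Set Y) := {A | A.Nonempty ∧ IsClosed A ∧ ∀ j, ∀ y ∈ A, σ j y ∈ A}
  obtain ⟨M, hMZ, hM⟩ := zorn_superset_nonempty F (by
    intro c hcF hchain hcne
    refine ⟨⋂₀ c, ⟨?_, ?_, ?_⟩, fun s hs => sInter_subset_of_mem hs⟩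
    · have : Nonempty c := hcne.to_subtype
      have h1 : (⋂ C : c, (C : Set Y)).Nonempty := by
        apply IsCompact.nonempty_iInter_of_directed_nonempty_isCompact_isClosed
        · intro A B
          rcases hchain.total A.2 B.2 with h | h
          · exact ⟨A, Subset.rfl, h⟩
          · exact ⟨B, h, Subset.rfl⟩
        · intro A
          exact (hcF A.2).1
        · intro A
          exact (hcF A.2).2.1.isCompact
        · intro A
          exact (hcF A.2).2.1
      rwa [sInter_eq_iInter]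
    · exact isClosed_sInter fun A hA => (hcF hA).2.1
    · intro j x hx
      rw [mem_sInter] at hx ⊢
      intro A hA
      exact (hcF hA).2.2 j x (hx A hA)) Z ⟨hZne, hZcl, hZ⟩
  refine ⟨M, hMZ, hM.prop.1, hM.prop.2.1, hM.prop.2.2, ?_⟩
  intro B hBM hBne hBcl hBinv
  exact Subset.antisymm hBM (hM.le_of_le ⟨hBne, hBcl, hBinv⟩ hBM)

/-- Every orbit of a minimal closed set visits, along words from a finite list, one of the
sets of a given countable closed cover. -/
lemma exists_finite_visits [CompactSpace Y] [T2Space Y] {σ : ι → Y → Y}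
    (hσ : ∀ j, Continuous (σ j)) {A : Set Y} (hAne : A.Nonempty) (hAcl : IsClosed A)
    (hA : ∀ j, ∀ y ∈ A, σ j y ∈ A)
    (hmin : ∀ B ⊆ A, B.Nonempty → IsClosed B → (∀ j, ∀ y ∈ B, σ j y ∈ B) → B = A)
    (F : ℕ → Set Y) (hF : ∀ i, IsClosed (F i)) (hcov : ∀ y ∈ A, ∃ i, y ∈ F i) :
    ∃ i, ∃ W : Finset (List ι), ∀ y ∈ A, ∃ w ∈ W, it σ w y ∈ F i := by
  classical
  have hAc : CompactSpace A := isCompact_iff_compactSpace.1 hAcl.isCompact
  have hAn : Nonempty A := hAne.to_subtype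
  obtain ⟨i, hi⟩ := nonempty_interior_of_iUnion_of_closed
    (f := fun i => {y : A | (y : Y) ∈ F i})
    (fun i => (hF i).preimage continuous_subtype_val) (by
      ext y
      simp only [mem_iUnion, mem_univ, iff_true]
      exact hcov y.1 y.2)
  obtain ⟨y₀, hy₀⟩ := hi
  obtain ⟨U', hU'F, hU'o, hy₀U'⟩ := mem_interior.1 hy₀
  obtain ⟨U, hUo, rfl⟩ := isOpen_induced_iff.1 hU'o
  have hUF : ∀ y ∈ A, y ∈ U → y ∈ F i := fun y hy hyU => hU'F (show (⟨y, hy⟩ : A) ∈ _ from hyU)
  have hvisit : ∀ y ∈ A, ∃ w, it σ w y ∈ U := by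
    intro y hy
    let B := closure (range fun w => it σ w y)
    have hBA : B ⊆ A := closure_minimal (by rintro _ ⟨w, rfl⟩; exact it_mem hA w y hy) hAcl
    have hB : B = A := by
      apply hmin B hBA ⟨y, subset_closure ⟨[], rfl⟩⟩ isClosed_closure
      intro j z hz
      have h1 : σ j '' B ⊆ closure (σ j '' range fun w => it σ w y) :=
        image_closure_subset_closure_image (hσ j)
      have h2 : closure (σ j '' range fun w => it σ w y) ⊆ B := by
        apply closure_mono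
        rintro _ ⟨_, ⟨w, rfl⟩, rfl⟩
        exact ⟨w ++ [j], it_snoc w j y⟩
      exact h2 (h1 (mem_image_of_mem _ hz))
    have h3 : (y₀ : Y) ∈ B := hB ▸ y₀.2
    obtain ⟨z, hzU, w, rfl⟩ := mem_closure_iff.1 h3 U hUo hy₀U'
    exact ⟨w, hzU⟩
  obtain ⟨W, hW⟩ := hAcl.isCompact.elim_finite_subcover (fun w : List ι => it σ w ⁻¹' U)
    (fun w => hUo.preimage (it_continuous hσ w)) (by
      intro y hy
      obtain ⟨w, hw⟩ := hvisit y hy
      exact mem_iUnion.2 ⟨w, hw⟩)
  refine ⟨i, W, fun y hy => ?_⟩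
  obtain ⟨w, hwW, hw⟩ := mem_iUnion₂.1 (hW hy)
  exact ⟨w, hwW, hUF _ (it_mem hA w y hy) hw⟩

end Pool.Agent.LRFix
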