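import Pool.Agent.LibLRFix.Min
import Pool.Agent.LibLRFix.Dyn

/-!
# The core argument for countable left reversible monoids
-/

open Filter Topology Set

namespace Pool.Agent.LRFix

set_option linter.unusedSectionVars false

/-- The center property with constant `θ`: asymptotic centers of ultrafilters that are
robust under nonexpansive maps. -/
def CenterProp (E : Type*) [NormedAddCommGroup E] [NormedSpace ℝ E] (θ : ℝ) : Prop :=
  ∀ K : Set E, WeaklyCompact K → Convex ℝ K → TopologicalSpace.IsSeparable K →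
    ∀ c : ℝ, 0 < c → ∀ p : Ultrafilter E, K ∈ p →
    (∀ v ∈ K, ∀ r > c, ∀ᶠ y in (p : Filter E), ‖y - v‖ ≤ r) →
    ∃ U : Filter E, U.NeBot ∧ K ∈ U ∧ ∀ T : E → E, MapsTo T K K →
      (∀ x ∈ K, ∀ y ∈ K, ‖T x - T y‖ ≤ ‖x - y‖) → ∀ τ ∈ K,
      (∀ φ : E →L[ℝ] ℝ, Tendsto (fun y => φ (T y)) p (𝓝 (φ τ))) →
      ∀ ρ > θ * c, ∀ᶠ z in U, ‖T z - τ‖ ≤ ρ

section lf

variable {S : Type*} [Monoid S]

/-- The filter generated by the principal right ideals. -/
def lf (S : Type*) [Monoid S] : Filter S := ⨅ a : S, 𝓟 (range fun t => a * t)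

lemma mem_lf (hS : LeftRev S) {U : Set S} : U ∈ lf S ↔ ∃ a : S, ∀ t, a * t ∈ U := by
  unfold lf
  rw [mem_iInf_of_directed]
  · simp only [mem_principal, range_subset_iff]
  · intro a b
    obtain ⟨c, d, hcd⟩ := hS a b
    refine ⟨a * c, ?_, ?_⟩
    · simp only [ge_iff_le, le_principal_iff, mem_principal, range_subset_iff]
      intro t
      exact ⟨c * t, (mul_assoc _ _ _).symm⟩
    · simp only [ge_iff_le, le_principal_iff, mem_principal, range_subset_iff]
      intro t
      exact ⟨d * t, by rw [hcd]; exact (mul_assoc _ _ _).symm⟩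

lemma lf_neBot (hS : LeftRev S) : (lf S).NeBot := by
  rw [neBot_iff]
  intro h
  have : (∅ : Set S) ∈ lf S := by rw [h]; exact mem_bot
  rw [mem_lf hS] at this
  obtain ⟨a, ha⟩ := this
  exact ha 1

lemma tendsto_mul_lf (hS : LeftRev S) (d : S) : Tendsto (fun k => d * k) (lf S) (lf S) := by
  intro U hU
  rw [mem_lf hS] at hU
  obtain ⟨b, hb⟩ := hU
  obtain ⟨p, q, hpq⟩ := hS d b
  rw [mem_map, mem_lf hS]
  refine ⟨p, fun t => ?_⟩
  change d * (p * t) ∈ U
  rw [← mul_assoc, hpq, mul_assoc]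
  exact hb _

end lf

variable {E : Type*} [NormedAddCommGroup E] [NormedSpace ℝ E]
variable {S : Type*} [Monoid S] {K : Set E} {f : S → E → E}

namespace Act

/-- The point `X N w (k x)` of `KW K`. -/
def pt (hf : Act f K) {h : ℕ → S} (C : Coh h) {x : E} (hx : x ∈ K) (N : ℕ) (w : List ℕ)
    (k : S) : KW K :=
  KW.mk (f (C.X N w) (f k x)) (hf.maps _ _ (hf.maps _ _ hx))

/-- Families which are realised at level `N`. -/
def Zs (hf : Act f K) {h : ℕ → S} (C : Coh h) {x : E} (hx : x ∈ K) (N : ℕ) :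
    Set (List ℕ → KW K) :=
  {τ | ∃ p : Ultrafilter S, (p : Filter S) ≤ lf S ∧
    ∀ w, Coh.V N w → Tendsto (fun k => hf.pt C hx N w k) p (𝓝 (τ w))}

variable (hf : Act f K) {h : ℕ → S} (C : Coh h) {x : E} (hx : x ∈ K)

open Classical in
lemma Zs_closed (N : ℕ) : IsClosed (hf.Zs C hx N) := by
  let g : S → (List ℕ → KW K) := fun k w =>
    if Coh.V N w then hf.pt C hx N w k else KW.mk x hx
  let mask : (List ℕ → KW K) → (List ℕ → KW K) := fun τ w =>
    if Coh.V N w then τ w else KW.mk x hx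
  have hmask : Continuous mask := by
    refine continuous_pi fun w => ?_
    by_cases hw : Coh.V N w
    · simp only [mask, hw, if_true]
      exact continuous_apply w
    · simp only [mask, hw, if_false]
      exact continuous_const
  have e : hf.Zs C hx N = mask ⁻¹' {y | ClusterPt y (map g (lf S))} := by
    ext τ
    change (∃ p : Ultrafilter S, (p : Filter S) ≤ lf S ∧
      ∀ w, Coh.V N w → Tendsto (fun k => hf.pt C hx N w k) p (𝓝 (τ w)))
      ↔ MapClusterPt (mask τ) (lf S) g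
    rw [mapClusterPt_iff_ultrafilter]
    refine exists_congr fun p => and_congr_right fun _ => ?_
    rw [tendsto_pi_nhds]
    refine forall_congr' fun w => ?_
    by_cases hw : Coh.V N w
    · simp only [mask, g, hw, if_true, forall_const]
    · simp only [mask, g, hw, if_false, false_imp_iff, true_iff]
      exact tendsto_const_nhds
  rw [e]
  exact isClosed_setOfPred_clusterPt.preimage hmask

lemma Zs_nonempty (hS : LeftRev S) (hK : WeaklyCompact K) (N : ℕ) :
    (hf.Zs C hx N).Nonempty := by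
  have := KW.compactSpace hK
  have := lf_neBot hS
  let p : Ultrafilter S := Ultrafilter.of (lf S)
  have hp : (p : Filter S) ≤ lf S := Ultrafilter.of_le _
  have h1 : ∀ w : List ℕ, ∃ y : KW K, Tendsto (fun k => hf.pt C hx N w k) p (𝓝 y) := by
    intro w
    obtain ⟨y, -, hy⟩ := isCompact_univ.ultrafilter_le_nhds
      (p.map fun k => hf.pt C hx N w k) (by simp)
    exact ⟨y, hy⟩
  choose τ hτ using h1
  exact ⟨τ, p, hp, fun w _ => hτ w⟩

lemma Zs_antitone (hS : LeftRev S) (N : ℕ) : hf.Zs C hx (N + 1) ⊆ hf.Zs C hx N := by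
  rintro τ ⟨p, hp, hτ⟩
  refine ⟨p.map (fun k => C.d (N + 1) * k), ?_, ?_⟩
  · exact (tendsto_mul_lf hS _).mono_left hp
  · intro w hw
    have h1 := hτ w (Coh.V_succ w N hw)
    have h2 : (fun k => hf.pt C hx (N + 1) w k)
        = (fun k => hf.pt C hx N w k) ∘ (fun k => C.d (N + 1) * k) := by
      funext k
      apply KW.ext
      change f (C.X (N + 1) w) (f k x) = f (C.X N w) (f (C.d (N + 1) * k) x)
      rw [C.X_succ w N hw, hf.mul _ _ _ (hf.maps k x hx), hf.mul _ _ _ hx]
    rw [h2] at h1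
    exact tendsto_map'_iff.2 h1

lemma Zs_shift (hS : LeftRev S) {N j : ℕ} (hj : j ≤ N) {τ : List ℕ → KW K}
    (hτ : τ ∈ hf.Zs C hx (N + 1)) : (fun w => τ (j :: w)) ∈ hf.Zs C hx N := by
  obtain ⟨p, hp, hτ⟩ := hτ
  refine ⟨p.map (fun k => C.c (N + 1) j * k), ?_, ?_⟩
  · exact (tendsto_mul_lf hS _).mono_left hp
  · intro w hw
    have h1 := hτ (j :: w) ⟨hj, hw⟩
    have h2 : (fun k => hf.pt C hx (N + 1) (j :: w) k)
        = (fun k => hf.pt C hx N w k) ∘ (fun k => C.c (N + 1) j * k) := by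
      funext k
      apply KW.ext
      change f (C.X (N + 1) (j :: w)) (f k x) = f (C.X N w) (f (C.c (N + 1) j * k) x)
      rw [C.X_cons, hf.mul _ _ _ (hf.maps k x hx), hf.mul _ _ _ hx]
    rw [h2] at h1
    exact tendsto_map'_iff.2 h1

end Act

/-- Weakly compact sets are bounded. -/
lemma WeaklyCompact.isBounded {K : Set E} (hK : WeaklyCompact K) : Bornology.IsBounded K := by
  have := KW.compactSpace hK
  obtain ⟨R, hR⟩ := banach_steinhaus
    (g := fun x : K => NormedSpace.inclusionInDoubleDual ℝ E x.1) (by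
      intro φ
      have h1 : IsCompact (range fun x : KW K => φ x.val) :=
        isCompact_range (KW.continuous_eval φ)
      obtain ⟨R, hR⟩ := h1.isBounded.exists_norm_le
      exact ⟨R, fun x => hR _ ⟨KW.mk x.1 x.2, rfl⟩⟩)
  rw [isBounded_iff_forall_norm_le]
  refine ⟨R, fun x hx => ?_⟩
  have h2 := hR ⟨x, hx⟩
  have h3 : ‖NormedSpace.inclusionInDoubleDual ℝ E x‖ = ‖x‖ :=
    (NormedSpace.inclusionInDoubleDualLi (E := E) ℝ).norm_map x
  rwa [h3] at h2

lemma it_shift (w : List ℕ) : ∀ τ : List ℕ → KW K,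
    it (fun (j : ℕ) (τ : List ℕ → KW K) (w' : List ℕ) => τ (j :: w')) w τ
      = fun w' => τ (w ++ w') := by
  induction w with
  | nil => intro τ; rfl
  | cons j w ih =>
    intro τ
    exact ih _

/-- The core theorem: countable monoid, separable minimal set. -/
theorem core {θ : ℝ} (hθ : θ < 1) (hCP : CenterProp E θ) [Countable S] (hS : LeftRev S)
    (hK : WeaklyCompact K) (hsep : TopologicalSpace.IsSeparable K) (hf : Act f K)
    (hM : MinInv f K) : ∃ x ∈ K, ∀ s, f s x = x := by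
  classical
  obtain ⟨c, hc0, hc1, hc2⟩ := exists_radius hS hf hM hK.isBounded
  rcases hc0.eq_or_lt with hc0 | hcpos
  · exact fixed_of_radius_zero hS hf hM (by rw [hc0]; exact hc1)
  exfalso
  have hcs := KW.compactSpace hK
  obtain ⟨x, hx⟩ := hM.nonempty
  obtain ⟨h, hh⟩ := exists_surjective_nat S
  obtain ⟨C⟩ := exists_coh hS h
  -- the compact set of families realised at all levels
  let σ : ℕ → (List ℕ → KW K) → (List ℕ → KW K) := fun j τ w' => τ (j :: w')
  have hσ : ∀ j, Continuous (σ j) := fun j => continuous_pi fun w' => continuous_apply _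
  have hanti : Antitone (fun N => hf.Zs C hx N) :=
    antitone_nat_of_succ_le fun N => hf.Zs_antitone C hx hS N
  have hZne : (⋂ N, hf.Zs C hx N).Nonempty :=
    IsCompact.nonempty_iInter_of_sequence_nonempty_isCompact_isClosed _
      (fun N => hf.Zs_antitone C hx hS N) (fun N => hf.Zs_nonempty C hx hS hK N)
      (hf.Zs_closed C hx 0).isCompact (fun N => hf.Zs_closed C hx N)
  have hZcl : IsClosed (⋂ N, hf.Zs C hx N) := isClosed_iInter fun N => hf.Zs_closed C hx N
  have hZinv : ∀ j, ∀ τ ∈ ⋂ N, hf.Zs C hx N, σ j τ ∈ ⋂ N, hf.Zs C hx N := by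
    intro j τ hτ
    rw [mem_iInter] at hτ ⊢
    intro N
    exact hanti (le_max_left N j) (hf.Zs_shift C hx hS (le_max_right N j) (hτ _))
  obtain ⟨A, hAZ, hAne, hAcl, hAinv, hAmin⟩ := exists_minimal_closed σ hZne hZcl hZinv
  -- a dense sequence
  have hsep' : TopologicalSpace.SeparableSpace K := hsep.separableSpace
  have hKne : Nonempty K := ⟨⟨x, hx⟩⟩
  let v : ℕ → K := TopologicalSpace.denseSeq K
  have hv : DenseRange v := TopologicalSpace.denseRange_denseSeq K
  set δ : ℝ := (1 - θ) * c / 4 with hδ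
  have hδpos : 0 < δ := by
    have : 0 < (1 - θ) * c := mul_pos (by linarith) hcpos
    rw [hδ]; linarith
  obtain ⟨i, W, hW⟩ := exists_finite_visits hσ hAne hAcl hAinv hAmin
    (fun i => {τ | ‖(τ []).val - (v i : E)‖ ≤ δ})
    (fun i => (KW.isClosed_ball (v i : E) δ).preimage
      (continuous_apply (A := fun _ : List ℕ => KW K) ([] : List ℕ))) (by
      intro τ _
      obtain ⟨i, hi⟩ := hv.exists_dist_lt (⟨(τ []).val, (τ []).mem⟩ : K) hδpos
      refine ⟨i, ?_⟩
      have : dist (τ []).val (v i : E) < δ := hi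
      rw [dist_eq_norm] at this
      exact this.le)
  obtain ⟨τ, hτA⟩ := hAne
  have hvis : ∀ w : List ℕ, ∃ w' ∈ W, ‖(τ (w ++ w')).val - (v i : E)‖ ≤ δ := by
    intro w
    have h1 : it σ w τ ∈ A := it_mem hAinv w τ hτA
    obtain ⟨w', hw', h2⟩ := hW _ h1
    refine ⟨w', hw', ?_⟩
    have e1 : it σ w τ = fun w' => τ (w ++ w') := it_shift w τ
    have e2 : it σ w' (it σ w τ) = fun w'' => (it σ w τ) (w' ++ w'') := it_shift w' _
    have h3 : ‖((it σ w' (it σ w τ)) []).val - (v i : E)‖ ≤ δ := h2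
    rw [e2, e1] at h3
    simpa using h3
  -- realising ultrafilters and center filters
  have hτZ : ∀ N, τ ∈ hf.Zs C hx N := fun N => mem_iInter.1 (hAZ hτA) N
  choose p hp hpt using hτZ
  have hU : ∀ N, ∃ U : Filter E, U.NeBot ∧ K ∈ U ∧ ∀ T : E → E, MapsTo T K K →
      (∀ x ∈ K, ∀ y ∈ K, ‖T x - T y‖ ≤ ‖x - y‖) → ∀ τ' ∈ K,
      (∀ φ : E →L[ℝ] ℝ, Tendsto (fun y => φ (T y)) ((p N).map fun k => f k x) (𝓝 (φ τ'))) →
      ∀ ρ > θ * c, ∀ᶠ z in U, ‖T z - τ'‖ ≤ ρ := by
    intro N
    refine hCP K hK hM.convex hsep c hcpos ((p N).map fun k => f k x) ?_ ?_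
    · rw [Ultrafilter.mem_map]
      exact Filter.univ_mem' (fun k => hf.maps k x hx)
    · intro v hv r hr
      obtain ⟨a, ha⟩ := hc1 v hv r hr
      have h1 : {k : S | ‖f k x - v‖ ≤ r} ∈ lf S := by
        rw [mem_lf hS]
        refine ⟨a, fun t => ?_⟩
        change ‖f (a * t) x - v‖ ≤ r
        rw [hf.mul a t x hx, norm_sub_rev]
        exact ha _ (hf.maps t x hx)
      exact hp N h1
  choose U hUne hKU hUT using hU
  have hnode : ∀ N w, Coh.V N w → ∀ ρ > θ * c,
      ∀ᶠ z in U N, ‖f (C.X N w) z - (τ w).val‖ ≤ ρ := by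
    intro N w hw ρ hρ
    refine hUT N (f (C.X N w)) (hf.maps _) (hf.ne _) _ (τ w).mem ?_ ρ hρ
    intro φ
    have h1 := (KW.tendsto_iff.1 (hpt N w hw)) φ
    exact tendsto_map'_iff.2 h1
  have hV : ∀ w, ∀ᶠ N in atTop, Coh.V N w := by
    intro w
    obtain ⟨N₀, hN₀⟩ := Coh.V_eventually w
    filter_upwards [eventually_ge_atTop N₀] with N hN
    exact Coh.V_mono w hN hN₀
  have hlarge : ∀ v ∈ K, ∀ r > c, ∀ w, ∀ᶠ N in atTop, ∀ u ∈ K, ‖f (C.X N w) u - v‖ ≤ r := by
    intro v hv r hr w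
    obtain ⟨a, ha⟩ := hc1 v hv r hr
    obtain ⟨j, rfl⟩ := hh a
    filter_upwards [hV w, eventually_ge_atTop (j + 1 + w.length)] with N hN hNj
    intro u hu
    obtain ⟨s, hs⟩ := C.X_large w N hN
    obtain ⟨t, ht⟩ := C.D_div' j (N - w.length) (by omega)
    rw [hs, ht, mul_assoc, hf.mul _ _ _ hu, norm_sub_rev]
    exact ha _ (hf.maps _ _ hu)
  -- the functional
  let P : E → ℝ → Prop := fun v r =>
    ∀ w, ∀ᶠ N in atTop, ∀ᶠ z in U N, ‖f (C.X N w) z - v‖ ≤ r
  have hPmono : ∀ v ∈ K, ∀ r r', r ≤ r' → P v r → P v r' := by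
    intro v _ r r' hrr hP w
    filter_upwards [hP w] with N hN
    filter_upwards [hN] with z hz
    exact hz.trans hrr
  have hspread : ∀ v₀ ∈ K, ∀ r, (∀ ε > 0, P v₀ (r + ε)) → ∀ v ∈ K, ∀ ε > 0, P v (r + ε) := by
    intro v₀ hv₀ r hr
    apply hM.spread hf.maps P _ hPmono _ _ hv₀ hr
    · intro v _ v' _ r hP w
      filter_upwards [hP w] with N hN
      filter_upwards [hN] with z hz
      calc ‖f (C.X N w) z - v'‖ = ‖(f (C.X N w) z - v) + (v - v')‖ := by congr 1; abel
        _ ≤ ‖f (C.X N w) z - v‖ + ‖v - v'‖ := norm_add_le _ _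
        _ ≤ r + ‖v - v'‖ := by linarith
    · intro v _ v' _ r a b ha hb hab hP hP' w
      filter_upwards [hP w, hP' w] with N hN hN'
      filter_upwards [hN, hN'] with z hz hz'
      calc ‖f (C.X N w) z - (a • v + b • v')‖
          = ‖a • (f (C.X N w) z - v) + b • (f (C.X N w) z - v')‖ := by
            congr 1
            have : f (C.X N w) z = (a + b) • f (C.X N w) z := by rw [hab, one_smul]
            rw [smul_sub, smul_sub]
            nth_rewrite 1 [this]
            rw [add_smul]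
            abel
        _ ≤ ‖a • (f (C.X N w) z - v)‖ + ‖b • (f (C.X N w) z - v')‖ := norm_add_le _ _
        _ = a * ‖f (C.X N w) z - v‖ + b * ‖f (C.X N w) z - v'‖ := by
            rw [norm_smul, norm_smul, Real.norm_of_nonneg ha, Real.norm_of_nonneg hb]
        _ ≤ a * r + b * r := by gcongr
        _ = r := by rw [← add_mul, hab, one_mul]
    · intro s v hv r hP w
      obtain ⟨j, rfl⟩ := hh s
      filter_upwards [hP (w ++ [j]), hV (w ++ [j])] with N hN hNV
      filter_upwards [hN, hKU N] with z hz hzK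
      have h1 := (C.X_snoc w N j hNV).2
      rw [h1, hf.mul _ _ _ hzK]
      exact (hf.ne _ _ (hf.maps _ _ hzK) _ hv).trans hz
  have hlow : ∀ v ∈ K, ∀ r < c, ¬ P v r := by
    intro v₀ hv₀ r hr hP
    have h1 := hspread v₀ hv₀ r (fun ε hε => hPmono v₀ hv₀ _ _ (by linarith) hP)
    set r' := (r + c) / 2 with hr'
    have h2 : ∀ v ∈ K, P v r' := by
      intro v hv
      have h3 := h1 v hv ((c - r) / 2) (by linarith)
      have e : r + (c - r) / 2 = r' := by rw [hr']; ring
      rwa [e] at h3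
    obtain ⟨z, hzK, hz⟩ := exists_center hK hM.nonempty r' (by
      intro F hF
      have h3 : ∀ᶠ N in atTop, ∀ v ∈ F, ∀ᶠ z in U N, ‖f (C.X N []) z - v‖ ≤ r' := by
        rw [Filter.eventually_all_finset]
        intro v hv
        exact h2 v (hF v hv) []
      obtain ⟨N, hN⟩ := h3.exists
      have h4 : ∀ᶠ z in U N, ∀ v ∈ F, ‖f (C.X N []) z - v‖ ≤ r' := by
        rw [Filter.eventually_all_finset]
        exact hN
      have := hUne N
      obtain ⟨z, hz, hzK⟩ := (h4.and (hKU N)).exists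
      exact ⟨f (C.X N []) z, hf.maps _ _ hzK, hz⟩)
    apply hc2 z hzK r' (by rw [hr']; linarith)
    refine ⟨1, fun u hu => ?_⟩
    rw [hf.one u hu]
    exact hz u hu
  -- the good average
  have hWne : W.Nonempty := by
    obtain ⟨w', hw', -⟩ := hvis []
    exact ⟨w', hw'⟩
  set n : ℝ := (W.card : ℝ) with hn
  have hnpos : 0 < n := by
    rw [hn]; exact_mod_cast hWne.card_pos
  let u : List ℕ → E := fun w' => f (Coh.hp h w') (v i)
  have hu : ∀ w', u w' ∈ K := fun w' => hf.maps _ _ (v i).2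
  let vbar : E := ∑ w' ∈ W, (1 / n) • u w'
  have hvbar : vbar ∈ K := by
    apply hM.convex.sum_mem (fun _ _ => by positivity) _ (fun w' _ => hu w')
    rw [Finset.sum_const, nsmul_eq_mul, ← hn]
    field_simp
  set ε : ℝ := (1 - θ) * c / (4 * n) with hε
  have hεpos : 0 < ε := by
    have : 0 < (1 - θ) * c := mul_pos (by linarith) hcpos
    rw [hε]; positivity
  have hup : P vbar (c - ε) := by
    intro w
    obtain ⟨w₀, hw₀, hw₀'⟩ := hvis w
    have h1 : ∀ᶠ N in atTop, ∀ w' ∈ W, ∀ y ∈ K, ‖f (C.X N w) y - u w'‖ ≤ c + ε := by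
      rw [Filter.eventually_all_finset]
      intro w' _
      exact hlarge (u w') (hu w') (c + ε) (by linarith) w
    filter_upwards [h1, hV (w ++ w₀)] with N hN hNV
    have h2 := hnode N (w ++ w₀) hNV (θ * c + δ) (by linarith)
    filter_upwards [h2, hKU N] with z hz hzK
    have hX := (C.X_append w₀ w N hNV).2
    have h3 : ‖f (C.X N w) z - u w₀‖ ≤ θ * c + 2 * δ := by
      rw [hX, hf.mul _ _ _ hzK]
      refine (hf.ne _ _ (hf.maps _ _ hzK) _ (v i).2).trans ?_
      calc ‖f (C.X N (w ++ w₀)) z - (v i : E)‖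
          = ‖(f (C.X N (w ++ w₀)) z - (τ (w ++ w₀)).val)
              + ((τ (w ++ w₀)).val - (v i : E))‖ := by congr 1; abel
        _ ≤ _ := norm_add_le _ _
        _ ≤ (θ * c + δ) + δ := add_le_add hz hw₀'
        _ = _ := by ring
    have h4 : f (C.X N w) z - vbar = ∑ w' ∈ W, (1 / n) • (f (C.X N w) z - u w') := by
      simp only [smul_sub, Finset.sum_sub_distrib]
      congr 1
      rw [Finset.sum_const, ← Nat.cast_smul_eq_nsmul ℝ, smul_smul, ← hn]
      rw [mul_one_div_cancel hnpos.ne', one_smul]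
    rw [h4]
    have h5 : ‖∑ w' ∈ W, (1 / n) • (f (C.X N w) z - u w')‖
        ≤ ∑ w' ∈ W, (1 / n) * (if w' = w₀ then θ * c + 2 * δ else c + ε) := by
      refine (norm_sum_le _ _).trans (Finset.sum_le_sum fun w' hw' => ?_)
      rw [norm_smul, Real.norm_of_nonneg (by positivity)]
      gcongr
      split_ifs with hww
      · rw [hww]; exact h3
      · exact hN w' hw' z hzK
    refine h5.trans ?_
    have h6 : ∑ w' ∈ W, (if w' = w₀ then θ * c + 2 * δ else c + ε)
        = n * (c + ε) + ((θ * c + 2 * δ) - (c + ε)) := by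
      have h7 : ∀ w' ∈ W, (if w' = w₀ then θ * c + 2 * δ else c + ε)
          = (c + ε) + (if w' = w₀ then (θ * c + 2 * δ) - (c + ε) else 0) := by
        intro w' _
        split_ifs <;> ring
      rw [Finset.sum_congr rfl h7, Finset.sum_add_distrib, Finset.sum_const, nsmul_eq_mul, ← hn,
        Finset.sum_ite_eq' W w₀, if_pos hw₀]
    rw [← Finset.mul_sum, h6, hδ]
    have h8 : (1 / n) * (n * (c + ε) + ((θ * c + 2 * ((1 - θ) * c / 4)) - (c + ε)))
        = c + ε - (1 / n) * ε - (1 - θ) * c / (2 * n) := by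
      field_simp
      ring
    rw [h8]
    have h9 : (1 - θ) * c / (2 * n) = 2 * ε := by
      rw [hε]; field_simp; ring
    have h10 : 0 < (1 / n) * ε := by positivity
    linarith
  exact hlow vbar hvbar (c - ε) (by linarith) hup

end Pool.Agent.LRFix
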