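import Pool.Agent.LibLRFix.Core

/-!
# The center property for spaces with a small Dominguez-Benavides coefficient
-/

open Filter Topology Set

namespace Pool.Agent.LRFix

variable {E : Type*} [NormedAddCommGroup E] [NormedSpace ℝ E]

/-- A countable separating family of functionals on a separable set. -/
lemma exists_separating {K : Set E} (hsep : TopologicalSpace.IsSeparable K) (hne : K.Nonempty) :
    ∃ φ : ℕ → (E →L[ℝ] ℝ), ∀ a ∈ K, ∀ b ∈ K, (∀ i, φ i a = φ i b) → a = b := by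
  have hsep' : TopologicalSpace.SeparableSpace K := hsep.separableSpace
  have hKne : Nonempty K := hne.to_subtype
  let v : ℕ → K := TopologicalSpace.denseSeq K
  have hv : DenseRange v := TopologicalSpace.denseRange_denseSeq K
  have h1 : ∀ q : ℕ × ℕ, ∃ g : E →L[ℝ] ℝ, ‖g‖ ≤ 1 ∧
      g ((v q.1 : E) - v q.2) = ‖(v q.1 : E) - v q.2‖ := by
    intro q
    obtain ⟨g, hg1, hg2⟩ := exists_dual_vector'' ℝ ((v q.1 : E) - v q.2)
    exact ⟨g, hg1, by exact_mod_cast hg2⟩
  choose g hg1 hg2 using h1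
  refine ⟨fun i => g (Nat.unpair i), fun a ha b hb hab => ?_⟩
  by_contra hne'
  have hd : 0 < ‖a - b‖ := norm_pos_iff.2 (sub_ne_zero.2 hne')
  have hd4 : 0 < ‖a - b‖ / 4 := by linarith
  obtain ⟨m, hm⟩ := hv.exists_dist_lt (⟨a, ha⟩ : K) hd4
  obtain ⟨n, hn⟩ := hv.exists_dist_lt (⟨b, hb⟩ : K) hd4
  have hm' : ‖a - v m‖ < ‖a - b‖ / 4 := by
    have : dist a (v m : E) < ‖a - b‖ / 4 := hm
    rwa [dist_eq_norm] at this
  have hn' : ‖b - v n‖ < ‖a - b‖ / 4 := by
    have : dist b (v n : E) < ‖a - b‖ / 4 := hn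
    rwa [dist_eq_norm] at this
  have hop : ∀ x : E, |g (m, n) x| ≤ ‖x‖ := by
    intro x
    calc |g (m, n) x| = ‖g (m, n) x‖ := rfl
      _ ≤ ‖g (m, n)‖ * ‖x‖ := (g (m, n)).le_opNorm x
      _ ≤ 1 * ‖x‖ := by gcongr; exact hg1 _
      _ = ‖x‖ := one_mul _
  have h2 : g (m, n) a = g (m, n) b := by
    have := hab (Nat.pair m n)
    simpa using this
  have h3 : g (m, n) ((v m : E) - v n) = ‖(v m : E) - v n‖ := hg2 (m, n)
  have h4 : g (m, n) ((v m : E) - v n)
      = g (m, n) (b - v n) - g (m, n) (a - v m) := by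
    rw [map_sub, map_sub, map_sub, h2]; ring
  have h5 := hop (b - v n)
  have h6 := hop (a - v m)
  have h7 : ‖a - b‖ ≤ ‖a - v m‖ + ‖(v m : E) - v n‖ + ‖b - v n‖ := by
    calc ‖a - b‖ = ‖(a - v m) + ((v m : E) - v n) - (b - v n)‖ := by congr 1; abel
      _ ≤ ‖(a - v m) + ((v m : E) - v n)‖ + ‖b - v n‖ := norm_sub_le _ _
      _ ≤ _ := by gcongr; exact norm_add_le _ _
  have h8 := abs_le.1 h5
  have h9 := abs_le.1 h6
  linarith [h8.1, h8.2, h9.1, h9.2]

/-- Sequential weak convergence in a weakly compact set can be tested on a separating family. -/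
lemma tendsto_of_separating {K : Set E} (hK : WeaklyCompact K) {φ : ℕ → (E →L[ℝ] ℝ)}
    (hφ : ∀ a ∈ K, ∀ b ∈ K, (∀ i, φ i a = φ i b) → a = b) {u : ℕ → KW K} {q : KW K}
    (h : ∀ i, Tendsto (fun n => φ i (u n).val) atTop (𝓝 (φ i q.val))) :
    Tendsto u atTop (𝓝 q) := by
  have := KW.compactSpace hK
  apply tendsto_nhds_of_unique_mapClusterPt
  intro b hb
  apply KW.ext
  apply hφ _ b.mem _ q.mem
  intro i
  obtain ⟨V, hV, hV'⟩ := mapClusterPt_iff_ultrafilter.1 hb
  have h1 : Tendsto (fun n => φ i (u n).val) V (𝓝 (φ i b.val)) :=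
    ((KW.continuous_eval (φ i)).tendsto b).comp hV'
  exact tendsto_nhds_unique h1 ((h i).mono_left hV)

/-- The geometric condition: the normalised coefficient condition. For `a = (1 - t) / t` it
follows from the inequality `R(a, E) < 1 + a` for the Dominguez-Benavides coefficient. -/
def SmallCoeff (E : Type*) [NormedAddCommGroup E] [NormedSpace ℝ E] (t θ : ℝ) : Prop :=
  ∀ (u : ℕ → E) (v : E), (∀ φ : E →L[ℝ] ℝ, Tendsto (fun n => φ (u n)) atTop (𝓝 0)) →
    (∀ m n, ‖u m - u n‖ ≤ t) → ‖v‖ ≤ 1 - t →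
    liminf (fun n => ‖u n + v‖) atTop ≤ θ

theorem centerProp_of_smallCoeff {t θ : ℝ} (ht0 : 0 < t) (ht1 : t < 1)
    (hE : SmallCoeff E t θ) : CenterProp E θ := by
  intro K hK hconv hsep c hc p hKp hp
  have hKne : K.Nonempty := Ultrafilter.nonempty_of_mem hKp
  obtain ⟨x₀, hx₀⟩ := hKne
  let m : E → E := fun y => t • y + (1 - t) • x₀
  have hmK : ∀ y ∈ K, m y ∈ K := fun y hy =>
    hconv hy hx₀ ht0.le (by linarith) (by ring)
  have hm1 : ∀ y y', m y - m y' = t • (y - y') := by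
    intro y y'; simp only [m, smul_sub]; abel
  have hm2 : ∀ y, m y - y = (1 - t) • (x₀ - y) := by
    intro y; simp only [m, smul_sub, sub_smul, one_smul]; abel
  refine ⟨map m p, inferInstance, ?_, ?_⟩
  · rw [mem_map]
    exact mem_of_superset hKp hmK
  intro T hTK hT τ hτ hweak ρ hρ
  by_contra hcon
  have hcon' : ∀ᶠ y in (p : Filter E), ρ < ‖T (m y) - τ‖ := by
    rw [eventually_map] at hcon
    have := Ultrafilter.eventually_not.2 hcon
    filter_upwards [this] with y hy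
    exact not_le.1 hy
  -- choice of r
  set r : ℝ := c + (ρ - θ * c) / (2 * (|θ| + 1)) with hr
  have hden : 0 < 2 * (|θ| + 1) := by positivity
  have hrc : c < r := by
    have : 0 < (ρ - θ * c) / (2 * (|θ| + 1)) := div_pos (by linarith) hden
    rw [hr]; linarith
  have hrpos : 0 < r := hc.trans hrc
  have hθr : θ * r < ρ := by
    have h1 : θ * ((ρ - θ * c) / (2 * (|θ| + 1))) ≤ |θ| * ((ρ - θ * c) / (2 * (|θ| + 1))) := by
      apply mul_le_mul_of_nonneg_right (le_abs_self θ)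
      exact (div_pos (by linarith) hden).le
    have h2 : |θ| * ((ρ - θ * c) / (2 * (|θ| + 1))) < ρ - θ * c := by
      rw [mul_div_assoc', div_lt_iff₀ hden]
      have : 0 < ρ - θ * c := by linarith
      nlinarith [abs_nonneg θ]
    rw [hr, mul_add]
    linarith
  -- weak limit of T (m y)
  have hcs := KW.compactSpace hK
  classical
  let mk' : E → KW K := fun y => if hy : y ∈ K then KW.mk y hy else KW.mk x₀ hx₀
  have hmk' : ∀ y ∈ K, (mk' y).val = y := by
    intro y hy
    simp only [mk', hy, dif_pos, KW.val_mk]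
  obtain ⟨q, -, hq⟩ := isCompact_univ.ultrafilter_le_nhds
    (p.map fun y => mk' (T (m y))) (by simp)
  have hq' : ∀ φ : E →L[ℝ] ℝ, Tendsto (fun y => φ (T (m y))) p (𝓝 (φ q.val)) := by
    intro φ
    have h1 := KW.tendsto_iff.1 (show Tendsto (fun y => mk' (T (m y))) p (𝓝 q) from hq) φ
    refine h1.congr' ?_
    filter_upwards [hKp] with y hy
    rw [hmk' _ (hTK (hmK y hy))]
  -- bound for q - τ
  have hqτ : ‖q.val - τ‖ ≤ (1 - t) * r := by
    obtain ⟨g, hg1, hg2⟩ := exists_dual_vector'' ℝ (q.val - τ)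
    have h1 : Tendsto (fun y => g (T (m y)) - g (T y)) p (𝓝 (g q.val - g τ)) :=
      (hq' g).sub (hweak g)
    have h2 : ∀ᶠ y in (p : Filter E), g (T (m y)) - g (T y) ≤ (1 - t) * r := by
      filter_upwards [hKp, hp x₀ hx₀ r hrc] with y hy hyr
      calc g (T (m y)) - g (T y) = g (T (m y) - T y) := by rw [map_sub]
        _ ≤ ‖g (T (m y) - T y)‖ := le_abs_self _
        _ ≤ ‖g‖ * ‖T (m y) - T y‖ := g.le_opNorm _
        _ ≤ 1 * ‖T (m y) - T y‖ := by gcongr
        _ ≤ 1 * ‖m y - y‖ := by gcongr; exact hT _ (hmK y hy) _ hy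
        _ = (1 - t) * ‖y - x₀‖ := by
          rw [one_mul, hm2, norm_smul, Real.norm_of_nonneg (by linarith), norm_sub_rev]
        _ ≤ (1 - t) * r := by gcongr
    have h3 := le_of_tendsto h1 h2
    have h4 : g (q.val - τ) = ‖q.val - τ‖ := by exact_mod_cast hg2
    rw [← h4, map_sub]
    exact h3
  -- the sequence
  obtain ⟨φ, hφ⟩ := exists_separating hsep ⟨x₀, hx₀⟩
  let P : ℕ × E → Prop := fun a => a.2 ∈ K ∧ ρ < ‖T (m a.2) - τ‖ ∧
    ∀ i ≤ a.1, |φ i (T (m a.2)) - φ i q.val| < 1 / ((a.1 : ℝ) + 1)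
  let R : ℕ × E → ℕ × E → Prop := fun a b => a.1 < b.1 ∧ ‖b.2 - a.2‖ ≤ r
  obtain ⟨F, hF1, hF2⟩ := exists_seq_of_forall_finset_exists P R (by
    intro s hs
    let N := s.sup (fun a => a.1) + 1
    have h1 : ∀ᶠ y in (p : Filter E), ∀ i ∈ Finset.range (N + 1),
        |φ i (T (m y)) - φ i q.val| < 1 / ((N : ℝ) + 1) := by
      rw [Filter.eventually_all_finset]
      intro i _
      have h2 := (hq' (φ i)).sub_const (φ i q.val)
      rw [sub_self] at h2
      have h3 := h2.abs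
      rw [abs_zero] at h3
      exact h3.eventually (gt_mem_nhds (by positivity))
    have h2 : ∀ᶠ y in (p : Filter E), ∀ a ∈ s, ‖y - a.2‖ ≤ r := by
      rw [Filter.eventually_all_finset]
      intro a ha
      exact hp a.2 (hs a ha).1 r hrc
    have hKp' : ∀ᶠ y in (p : Filter E), y ∈ K := hKp
    obtain ⟨y, ⟨⟨hy1, hy2⟩, hy3⟩, hy4⟩ := (((hKp'.and hcon').and h1).and h2).exists
    refine ⟨(N, y), ⟨hy1, hy2, fun i hi => hy3 i (Finset.mem_range.2 (Nat.lt_succ_of_le hi))⟩,
      fun a ha => ⟨?_, hy4 a ha⟩⟩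
    exact Nat.lt_succ_of_le (Finset.le_sup (f := fun a : ℕ × E => a.1) ha))
  have hmono : StrictMono (fun k => (F k).1) := fun a b hab => (hF2 a b hab).1
  have hk : ∀ k, k ≤ (F k).1 := fun k => hmono.id_le k
  let Y : ℕ → E := fun k => (F k).2
  let qk : ℕ → E := fun k => T (m (Y k))
  have hYK : ∀ k, Y k ∈ K := fun k => (hF1 k).1
  have hqK : ∀ k, qk k ∈ K := fun k => hTK (hmK _ (hYK k))
  have hconvq : Tendsto (fun k => KW.mk (qk k) (hqK k)) atTop (𝓝 q) := by
    apply tendsto_of_separating hK hφ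
    intro i
    rw [tendsto_iff_norm_sub_tendsto_zero]
    apply squeeze_zero' (Eventually.of_forall fun k => norm_nonneg _) (g := fun k : ℕ => 1 / ((k : ℝ) + 1))
    · filter_upwards [eventually_ge_atTop i] with k hik
      have h1 := (hF1 k).2.2 i (hik.trans (hk k))
      refine h1.le.trans ?_
      gcongr
      exact_mod_cast hk k
    · exact tendsto_one_div_add_atTop_nhds_zero_nat
  have hconvq' := KW.tendsto_iff.1 hconvq
  -- apply the geometric condition
  have hdiff : ∀ a b, ‖qk a - qk b‖ ≤ t * r := by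
    have h1 : ∀ a b, a < b → ‖qk b - qk a‖ ≤ t * r := by
      intro a b hab
      calc ‖qk b - qk a‖ ≤ ‖m (Y b) - m (Y a)‖ := hT _ (hmK _ (hYK b)) _ (hmK _ (hYK a))
        _ = t * ‖Y b - Y a‖ := by rw [hm1, norm_smul, Real.norm_of_nonneg ht0.le]
        _ ≤ t * r := by gcongr; exact (hF2 a b hab).2
    intro a b
    rcases lt_trichotomy a b with hab | rfl | hab
    · rw [norm_sub_rev]; exact h1 a b hab
    · rw [sub_self, norm_zero]; positivity
    · exact h1 b a hab
  have hres := hE (fun k => r⁻¹ • (qk k - q.val)) (r⁻¹ • (q.val - τ)) (by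
      intro ψ
      have h1 := ((hconvq' ψ).sub_const (ψ q.val)).const_mul r⁻¹
      rw [sub_self, mul_zero] at h1
      refine h1.congr fun k => ?_
      rw [map_smul, map_sub, smul_eq_mul]
      rfl) (by
      intro a b
      have : r⁻¹ • (qk a - q.val) - r⁻¹ • (qk b - q.val) = r⁻¹ • (qk a - qk b) := by
        rw [← smul_sub]; congr 1; abel
      rw [this, norm_smul, Real.norm_of_nonneg (by positivity)]
      calc r⁻¹ * ‖qk a - qk b‖ ≤ r⁻¹ * (t * r) := by gcongr; exact hdiff a b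
        _ = t := by field_simp) (by
      rw [norm_smul, Real.norm_of_nonneg (by positivity)]
      calc r⁻¹ * ‖q.val - τ‖ ≤ r⁻¹ * ((1 - t) * r) := by gcongr
        _ = 1 - t := by field_simp)
  have hlow : ρ / r ≤ liminf (fun k => ‖r⁻¹ • (qk k - q.val) + r⁻¹ • (q.val - τ)‖) atTop := by
    have hval : ∀ k, ‖r⁻¹ • (qk k - q.val) + r⁻¹ • (q.val - τ)‖ = r⁻¹ * ‖qk k - τ‖ := by
      intro k
      rw [← smul_add, norm_smul, Real.norm_of_nonneg (by positivity)]
      congr 2; abel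
    apply le_liminf_of_le
    · apply IsBoundedUnder.isCoboundedUnder_ge
      obtain ⟨B, hB⟩ := hK.isBounded.exists_norm_le
      refine ⟨r⁻¹ * (B + ‖τ‖), ?_⟩
      simp only [eventually_map]
      refine Eventually.of_forall fun k => ?_
      rw [hval]
      gcongr
      exact (norm_sub_le _ _).trans (by gcongr; exact hB _ (hqK k))
    · refine Eventually.of_forall fun k => ?_
      rw [hval, div_eq_inv_mul]
      gcongr
      exact (hF1 k).2.1.le
  have h1 : ρ / r ≤ θ := hlow.trans hres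
  rw [div_le_iff₀ hrpos] at h1
  linarith

end Pool.Agent.LRFix
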