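import Pool.Agent.LibLRFix.Geo

/-!
# The center property for `C(X)` with `X` of finite Cantor-Bendixson height
-/

open Filter Topology Set

namespace Pool.Agent.LRFix

section voters

variable {E : Type*}

/-- Iterated independent choices along an ultrafilter. -/
def voters (p : Filter E) : ℕ → Filter (List E)
  | 0 => pure []
  | (k + 1) => (voters p k).bind fun L => p.map fun y => y :: L

lemma eventually_voters_succ {p : Filter E} {k : ℕ} {P : List E → Prop} :
    (∀ᶠ L in voters p (k + 1), P L) ↔ ∀ᶠ L in voters p k, ∀ᶠ y in p, P (y :: L) := by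
  rw [voters, Filter.eventually_bind]
  rfl

lemma voters_neBot {p : Filter E} [p.NeBot] : ∀ k, (voters p k).NeBot := by
  intro k
  induction k with
  | zero => exact Filter.pure_neBot
  | succ k ih =>
    refine ⟨fun h => ?_⟩
    have h1 : ∀ᶠ L in voters p (k + 1), False := by rw [h]; exact mem_bot
    rw [eventually_voters_succ] at h1
    obtain ⟨L, hL⟩ := h1.exists
    exact hL.exists.elim fun _ h => h

end voters

variable {E : Type*} [NormedAddCommGroup E] [NormedSpace ℝ E]

lemma list_sum_sub_le {a : E} {r : ℝ} : ∀ L : List E, (∀ b ∈ L, ‖a - b‖ ≤ r) →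
    ‖L.sum - (L.length : ℝ) • a‖ ≤ L.length * r := by
  intro L
  induction L with
  | nil => intro _; simp
  | cons b L ih =>
    intro h
    have h1 := ih fun c hc => h c (List.mem_cons_of_mem _ hc)
    have h2 := h b List.mem_cons_self
    have h3 : (b :: L).sum - ((b :: L).length : ℝ) • a =
        (L.sum - (L.length : ℝ) • a) - (a - b) := by
      rw [List.sum_cons, List.length_cons, Nat.cast_add, Nat.cast_one, add_smul, one_smul]
      abel
    rw [h3, List.length_cons, Nat.cast_add, Nat.cast_one]
    refine (norm_sub_le _ _).trans ?_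
    linarith

lemma list_sum_sub_le' {r : ℝ} : ∀ L : List E, L.Pairwise (fun a b => ‖a - b‖ ≤ r) →
    ∀ y ∈ L, ‖L.sum - (L.length : ℝ) • y‖ ≤ (L.length - 1) * r := by
  intro L
  induction L with
  | nil => intro _ y hy; exact absurd hy List.not_mem_nil
  | cons b L ih =>
    intro h y hy
    rw [List.pairwise_cons] at h
    rw [List.length_cons, Nat.cast_add, Nat.cast_one]
    rcases List.mem_cons.1 hy with rfl | hy
    · have h1 := list_sum_sub_le L h.1
      have h3 : (y :: L).sum - ((L.length : ℝ) + 1) • y = L.sum - (L.length : ℝ) • y := by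
        rw [List.sum_cons, add_smul, one_smul]
        abel
      rw [h3]
      linarith
    · have h1 := ih h.2 y hy
      have h2 := h.1 y hy
      have h3 : (b :: L).sum - ((L.length : ℝ) + 1) • y =
          (L.sum - (L.length : ℝ) • y) + (b - y) := by
        rw [List.sum_cons, add_smul, one_smul]
        abel
      rw [h3]
      refine (norm_add_le _ _).trans ?_
      linarith

lemma list_average_mem {K : Set E} (hK : Convex ℝ K) : ∀ L : List E, L ≠ [] →
    (∀ y ∈ L, y ∈ K) → ((1 : ℝ) / L.length) • L.sum ∈ K := by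
  intro L
  induction L with
  | nil => intro h; exact absurd rfl h
  | cons b L ih =>
    intro _ h
    by_cases hL : L = []
    · subst hL
      simpa using h b List.mem_cons_self
    · have h1 := ih hL fun c hc => h c (List.mem_cons_of_mem _ hc)
      have h2 := h b List.mem_cons_self
      have hpos : 0 < (L.length : ℝ) := by
        exact_mod_cast List.length_pos_iff.2 hL
      have h3 : ((1 : ℝ) / (b :: L).length) • (b :: L).sum =
          (1 / ((L.length : ℝ) + 1)) • b +
            ((L.length : ℝ) / ((L.length : ℝ) + 1)) • (((1 : ℝ) / L.length) • L.sum) := by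
        rw [List.sum_cons, List.length_cons, Nat.cast_add, Nat.cast_one, smul_add, smul_smul]
        congr 2
        field_simp
      rw [h3]
      exact hK h2 h1 (by positivity) (by positivity) (by field_simp; ring)

/-- The iterated derived sets. -/
def cb (X : Type*) [TopologicalSpace X] (n : ℕ) : Set X := derivedSet^[n] univ

variable {X : Type*} [TopologicalSpace X] [CompactSpace X] [T2Space X]

lemma isClosed_cb (n : ℕ) : IsClosed (cb X n) := by
  unfold cb
  cases n with
  | zero => exact isClosed_univ
  | succ n =>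
    rw [Function.iterate_succ_apply']
    exact isClosed_derivedSet _

lemma finite_of_cb {A : Set X} (hA : IsClosed A) {n : ℕ} (h : A ∩ cb X (n + 1) = ∅) :
    (A ∩ cb X n).Finite := by
  by_contra hinf
  have hc : IsCompact (A ∩ cb X n) := (hA.inter (isClosed_cb n)).isCompact
  obtain ⟨x, hx, hacc⟩ := Set.Infinite.exists_accPt_of_subset_isCompact hinf hc subset_rfl
  have h1 : x ∈ cb X (n + 1) := by
    unfold cb
    rw [Function.iterate_succ_apply']
    exact hacc.mono (principal_mono.2 inter_subset_right)
  have : x ∈ A ∩ cb X (n + 1) := ⟨hx.1, h1⟩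
  rw [h] at this
  exact this

/-- Spaces of continuous functions on compact spaces of finite height. -/
theorem centerProp_CK {N : ℕ} (hN : cb X (N + 1) = ∅) :
    CenterProp C(X, ℝ) (N / (N + 1)) := by
  intro K hK hconv hsep c hc p hKp hp
  let M : ℕ := N + 1
  have hKp' : ∀ᶠ y in (p : Filter C(X, ℝ)), y ∈ K := hKp
  have hmem : ∀ k, ∀ᶠ L in voters (p : Filter C(X, ℝ)) k, L.length = k ∧ ∀ y ∈ L, y ∈ K := by
    intro k
    induction k with
    | zero =>
      refine (eventually_pure).2 ⟨rfl, fun y hy => absurd hy List.not_mem_nil⟩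
    | succ k ih =>
      rw [eventually_voters_succ]
      filter_upwards [ih] with L hL
      filter_upwards [hKp'] with y hy
      refine ⟨by rw [List.length_cons, hL.1], fun y' hy' => ?_⟩
      rcases List.mem_cons.1 hy' with rfl | hy'
      · exact hy
      · exact hL.2 _ hy'
  have hvb := voters_neBot (p := (p : Filter C(X, ℝ))) (N + 1)
  refine ⟨(voters (p : Filter C(X, ℝ)) (N + 1)).map
    (fun L => ((1 : ℝ) / L.length) • L.sum), inferInstance, ?_, ?_⟩
  · rw [mem_map]
    filter_upwards [hmem (N + 1)] with L hL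
    refine list_average_mem hconv L ?_ hL.2
    intro h
    rw [h] at hL
    exact absurd hL.1 (Nat.succ_ne_zero N).symm
  intro T hTK hT τ hτ hweak ρ hρ
  set θ : ℝ := (N : ℝ) / (N + 1) with hθdef
  have hθ : 0 ≤ θ := by positivity
  set η : ℝ := (ρ - θ * c) / (θ + 1) with hη
  have hηpos : 0 < η := div_pos (by linarith) (by linarith)
  have hηeq : θ * (c + η) + η = ρ := by
    have : η * (θ + 1) = ρ - θ * c := by
      rw [hη]; field_simp
    linarith
  rw [eventually_map]
  have key : ∀ k ≤ N + 1, ∀ᶠ L in voters (p : Filter C(X, ℝ)) k, (∀ y ∈ L, y ∈ K) ∧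
      L.Pairwise (fun a b => ‖a - b‖ ≤ c + η) ∧
      {x : X | ∀ y ∈ L, η ≤ |T y x - τ x|} ∩ cb X (N + 1 - k) = ∅ := by
    intro k
    induction k with
    | zero =>
      intro _
      refine (eventually_pure).2 ⟨fun y hy => absurd hy List.not_mem_nil,
        List.Pairwise.nil, ?_⟩
      rw [Nat.sub_zero, hN, inter_empty]
    | succ k ih =>
      intro hk
      rw [eventually_voters_succ]
      filter_upwards [ih (by omega)] with L hL
      obtain ⟨hLK, hLp, hLA⟩ := hL
      set A : Set X := {x : X | ∀ y ∈ L, η ≤ |T y x - τ x|} with hA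
      have hAcl : IsClosed A := by
        have : A = ⋂ y ∈ L, {x : X | η ≤ |T y x - τ x|} := by
          ext x
          simp only [hA, mem_ofPred_eq, mem_iInter]
        rw [this]
        refine isClosed_iInter fun y => isClosed_iInter fun _ => ?_
        exact isClosed_le continuous_const (by fun_prop)
      have hfin : (A ∩ cb X (N + 1 - (k + 1))).Finite := by
        apply finite_of_cb hAcl
        have : N + 1 - (k + 1) + 1 = N + 1 - k := by omega
        rw [this]
        exact hLA
      have h1 : ∀ᶠ y in (p : Filter C(X, ℝ)), ∀ x ∈ A ∩ cb X (N + 1 - (k + 1)),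
          |T y x - τ x| < η := by
        rw [Filter.eventually_all_finite hfin]
        intro x _
        have h2 := (hweak (ContinuousMap.evalCLM ℝ x)).sub_const (τ x)
        have h3 : Tendsto (fun y => T y x - τ x) p (𝓝 (τ x - τ x)) := h2
        rw [sub_self] at h3
        have h4 := h3.abs
        rw [abs_zero] at h4
        exact h4.eventually (gt_mem_nhds hηpos)
      have h2 : ∀ᶠ y in (p : Filter C(X, ℝ)), ∀ y' ∈ L, ‖y - y'‖ ≤ c + η := by
        classical
        have h3 : ∀ᶠ y in (p : Filter C(X, ℝ)), ∀ y' ∈ L.toFinset, ‖y - y'‖ ≤ c + η := by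
          rw [Filter.eventually_all_finset]
          intro y' hy'
          exact hp y' (hLK y' (List.mem_toFinset.1 hy')) (c + η) (by linarith)
        exact h3.mono fun y hy y' hy' => hy y' (List.mem_toFinset.2 hy')
      filter_upwards [hKp', h1, h2] with y hy hy1 hy2
      refine ⟨fun y' hy' => ?_, List.pairwise_cons.2 ⟨hy2, hLp⟩, ?_⟩
      · rcases List.mem_cons.1 hy' with rfl | hy'
        · exact hy
        · exact hLK _ hy'
      · rw [Set.eq_empty_iff_forall_notMem]
        rintro x ⟨hx1, hx2⟩
        have hx3 : x ∈ A := fun y' hy' => hx1 y' (List.mem_cons_of_mem _ hy')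
        have hx4 := hx1 y List.mem_cons_self
        have hx5 := hy1 x ⟨hx3, hx2⟩
        linarith
  filter_upwards [key (N + 1) le_rfl, hmem (N + 1)] with L hL hL'
  obtain ⟨hLK, hLp, hLA⟩ := hL
  rw [Nat.sub_self] at hLA
  have hLA' : ∀ x : X, ∃ y ∈ L, |T y x - τ x| < η := by
    intro x
    by_contra hcon
    push Not at hcon
    have : x ∈ {x : X | ∀ y ∈ L, η ≤ |T y x - τ x|} ∩ cb X 0 := ⟨hcon, trivial⟩
    rw [hLA] at this
    exact this
  have hLne : L ≠ [] := by
    intro h
    rw [h] at hL'
    exact absurd hL'.1 (Nat.succ_ne_zero N).symm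
  have hlen : (L.length : ℝ) = N + 1 := by rw [hL'.1]; push_cast; ring
  have hzK := list_average_mem hconv L hLne hLK
  set z : C(X, ℝ) := ((1 : ℝ) / L.length) • L.sum with hz
  have hzy : ∀ y ∈ L, ‖z - y‖ ≤ θ * (c + η) := by
    intro y hy
    have h1 := list_sum_sub_le' L hLp y hy
    have h2 : z - y = ((1 : ℝ) / (N + 1)) • (L.sum - (L.length : ℝ) • y) := by
      rw [hz, smul_sub, smul_smul, hlen]
      congr 1
      have : (1 : ℝ) / (N + 1) * (N + 1) = 1 := by field_simp
      rw [this, one_smul]
    rw [h2, norm_smul, Real.norm_of_nonneg (by positivity)]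
    rw [hlen] at h1
    have h3 : (N : ℝ) + 1 - 1 = N := by ring
    rw [hlen]
    rw [h3] at h1
    calc 1 / ((N : ℝ) + 1) * ‖L.sum - ((N : ℝ) + 1) • y‖ ≤ 1 / ((N : ℝ) + 1) * (N * (c + η)) := by
          gcongr
      _ = θ * (c + η) := by rw [hθdef]; ring
  rw [ContinuousMap.norm_le _ (by nlinarith)]
  intro x
  obtain ⟨y, hy, hyx⟩ := hLA' x
  have h1 : |T z x - T y x| ≤ θ * (c + η) := by
    calc |T z x - T y x| = ‖(T z - T y) x‖ := rfl
      _ ≤ ‖T z - T y‖ := ContinuousMap.norm_coe_le_norm _ x
      _ ≤ ‖z - y‖ := hT z hzK y (hLK y hy)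
      _ ≤ _ := hzy y hy
  calc ‖(T z - τ) x‖ = |(T z x - T y x) + (T y x - τ x)| := by
        rw [ContinuousMap.sub_apply, Real.norm_eq_abs]; congr 1; ring
    _ ≤ |T z x - T y x| + |T y x - τ x| := abs_add_le _ _
    _ ≤ ρ := by linarith

end Pool.Agent.LRFix
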