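import Pool.Agent.LibLRFix.Geo

/-!
# The center property for spaces with a small two sided coefficient
-/

open Filter Topology Set

namespace Pool.Agent.LRFix

variable {E : Type*} [NormedAddCommGroup E] [NormedSpace ℝ E]

/-- The two sided coefficient condition. For `a = (1 - t) / t` it follows from the inequality
`RW(a, E) < 1 + a`. -/
def SymCoeff (E : Type*) [NormedAddCommGroup E] [NormedSpace ℝ E] (t θ : ℝ) : Prop :=
  ∀ (u : ℕ → E) (v : E), (∀ φ : E →L[ℝ] ℝ, Tendsto (fun n => φ (u n)) atTop (𝓝 0)) →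
    (∀ n, ‖u n‖ ≤ t) → ‖v‖ ≤ 1 - t →
    liminf (fun n => min ‖v + u n‖ ‖v - u n‖) atTop ≤ θ

/-- Ultrafilter limits of functionals of norm at most one. -/
lemma exists_weakStar_limit (p : Ultrafilter E) (g : E → (E →L[ℝ] ℝ)) (hg : ∀ y, ‖g y‖ ≤ 1) :
    ∃ f : E →L[ℝ] ℝ, ∀ e : E, Tendsto (fun y => g y e) p (𝓝 (f e)) := by
  have h1 := WeakDual.isCompact_closedBall (𝕜 := ℝ) (E := E) 0 1
  obtain ⟨f, -, hf⟩ := h1.ultrafilter_le_nhds (p.map fun y => StrongDual.toWeakDual (g y)) (by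
    rw [le_principal_iff]
    change (fun y => StrongDual.toWeakDual (g y)) ⁻¹' _ ∈ (p : Filter E)
    refine mem_of_superset univ_mem fun y _ => ?_
    simp only [mem_preimage, mem_closedBall_zero_iff]
    exact hg y)
  refine ⟨WeakDual.toStrongDual f, fun e => ?_⟩
  exact ((WeakDual.eval_continuous e).tendsto f).comp hf

theorem centerProp_of_symCoeff {t θ : ℝ} (ht0 : 0 < t) (ht1 : t < 1)
    (hE : SymCoeff E t θ) : CenterProp E θ := by
  intro K hK hconv hsep c hc p hKp hp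
  have hKne : K.Nonempty := Ultrafilter.nonempty_of_mem hKp
  obtain ⟨x₀, hx₀⟩ := hKne
  let m : E → E := fun y => t • y + (1 - t) • x₀
  have hmK : ∀ y ∈ K, m y ∈ K := fun y hy =>
    hconv hy hx₀ ht0.le (by linarith) (by ring)
  have hm1 : ∀ y y', m y - m y' = t • (y - y') := by
    intro y y'; simp only [m, smul_sub]; abel
  have hm2 : ∀ y, m y - y = (1 - t) • (x₀ - y) := by
    intro y; simp only [m, smul_sub, sub_smul, one_smul]; abel
  refine ⟨map m p, inferInstance, ?_, ?_⟩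
  · rw [mem_map]
    exact mem_of_superset hKp hmK
  intro T hTK hT τ hτ hweak ρ hρ
  by_contra hcon
  have hcon' : ∀ᶠ y in (p : Filter E), ρ < ‖T (m y) - τ‖ := by
    rw [eventually_map] at hcon
    have := Ultrafilter.eventually_not.2 hcon
    filter_upwards [this] with y hy
    exact not_le.1 hy
  -- choice of r
  set r : ℝ := c + (ρ - θ * c) / (2 * (|θ| + 1)) with hr
  have hden : 0 < 2 * (|θ| + 1) := by positivity
  have hrc : c < r := by
    have : 0 < (ρ - θ * c) / (2 * (|θ| + 1)) := div_pos (by linarith) hden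
    rw [hr]; linarith
  have hrpos : 0 < r := hc.trans hrc
  have hθr : θ * r < ρ := by
    have h1 : θ * ((ρ - θ * c) / (2 * (|θ| + 1))) ≤ |θ| * ((ρ - θ * c) / (2 * (|θ| + 1))) := by
      apply mul_le_mul_of_nonneg_right (le_abs_self θ)
      exact (div_pos (by linarith) hden).le
    have h2 : |θ| * ((ρ - θ * c) / (2 * (|θ| + 1))) < ρ - θ * c := by
      rw [mul_div_assoc', div_lt_iff₀ hden]
      have : 0 < ρ - θ * c := by linarith
      nlinarith [abs_nonneg θ]
    rw [hr, mul_add]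
    linarith
  set η : ℝ := (ρ - θ * r) / 4 with hη
  have hηpos : 0 < η := by rw [hη]; linarith
  -- weak limit of T (m y)
  have hcs := KW.compactSpace hK
  classical
  let mk' : E → KW K := fun y => if hy : y ∈ K then KW.mk y hy else KW.mk x₀ hx₀
  have hmk' : ∀ y ∈ K, (mk' y).val = y := by
    intro y hy
    simp only [mk', hy, dif_pos, KW.val_mk]
  obtain ⟨q, -, hq⟩ := isCompact_univ.ultrafilter_le_nhds
    (p.map fun y => mk' (T (m y))) (by simp)
  have hq' : ∀ φ : E →L[ℝ] ℝ, Tendsto (fun y => φ (T (m y))) p (𝓝 (φ q.val)) := by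
    intro φ
    have h1 := KW.tendsto_iff.1 (show Tendsto (fun y => mk' (T (m y))) p (𝓝 q) from hq) φ
    refine h1.congr' ?_
    filter_upwards [hKp] with y hy
    rw [hmk' _ (hTK (hmK y hy))]
  -- bound for q - τ
  have hqτ : ‖q.val - τ‖ ≤ (1 - t) * r := by
    obtain ⟨g, hg1, hg2⟩ := exists_dual_vector'' ℝ (q.val - τ)
    have h1 : Tendsto (fun y => g (T (m y)) - g (T y)) p (𝓝 (g q.val - g τ)) :=
      (hq' g).sub (hweak g)
    have h2 : ∀ᶠ y in (p : Filter E), g (T (m y)) - g (T y) ≤ (1 - t) * r := by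
      filter_upwards [hKp, hp x₀ hx₀ r hrc] with y hy hyr
      calc g (T (m y)) - g (T y) = g (T (m y) - T y) := by rw [map_sub]
        _ ≤ ‖g (T (m y) - T y)‖ := le_abs_self _
        _ ≤ ‖g‖ * ‖T (m y) - T y‖ := g.le_opNorm _
        _ ≤ 1 * ‖T (m y) - T y‖ := by gcongr
        _ ≤ 1 * ‖m y - y‖ := by gcongr; exact hT _ (hmK y hy) _ hy
        _ = (1 - t) * ‖y - x₀‖ := by
          rw [one_mul, hm2, norm_smul, Real.norm_of_nonneg (by linarith), norm_sub_rev]
        _ ≤ (1 - t) * r := by gcongr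
    have h3 := le_of_tendsto h1 h2
    have h4 : g (q.val - τ) = ‖q.val - τ‖ := by exact_mod_cast hg2
    rw [← h4, map_sub]
    exact h3
  -- norming functionals
  have hdual : ∀ y : E, ∃ g : E →L[ℝ] ℝ, ‖g‖ ≤ 1 ∧ g (T (m y) - τ) = ‖T (m y) - τ‖ := by
    intro y
    obtain ⟨g, hg1, hg2⟩ := exists_dual_vector'' ℝ (T (m y) - τ)
    exact ⟨g, hg1, by exact_mod_cast hg2⟩
  choose g hg1 hg2 using hdual
  obtain ⟨f, hf⟩ := exists_weakStar_limit p g hg1
  have hop : ∀ y e, g y e ≤ ‖e‖ := by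
    intro y e
    calc g y e ≤ ‖g y e‖ := le_abs_self _
      _ ≤ ‖g y‖ * ‖e‖ := (g y).le_opNorm e
      _ ≤ 1 * ‖e‖ := by gcongr; exact hg1 y
      _ = ‖e‖ := one_mul _
  -- the sequence
  obtain ⟨φ, hφ⟩ := exists_separating hsep ⟨x₀, hx₀⟩
  have hstep : ∀ k : ℕ, ∃ y y' : E, y ∈ K ∧ y' ∈ K ∧
      (∀ i ≤ k, |φ i (T (m y)) - φ i q.val| < 1 / ((k : ℝ) + 1)) ∧
      (∀ i ≤ k, |φ i (T (m y')) - φ i q.val| < 1 / ((k : ℝ) + 1)) ∧
      ‖T (m y) - T (m y')‖ ≤ t * r ∧
      ρ - 3 * η ≤ ‖(q.val - τ) + (T (m y) - T (m y'))‖ ∧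
      ρ - 3 * η ≤ ‖(q.val - τ) - (T (m y) - T (m y'))‖ := by
    intro k
    have hclose : ∀ᶠ y in (p : Filter E), ∀ i ∈ Finset.range (k + 1),
        |φ i (T (m y)) - φ i q.val| < 1 / ((k : ℝ) + 1) := by
      rw [Filter.eventually_all_finset]
      intro i _
      have h2 := (hq' (φ i)).sub_const (φ i q.val)
      rw [sub_self] at h2
      have h3 := h2.abs
      rw [abs_zero] at h3
      exact h3.eventually (gt_mem_nhds (by positivity))
    have hfq : ∀ (ψ : E →L[ℝ] ℝ), ∀ᶠ y in (p : Filter E), |ψ (T (m y)) - ψ q.val| < η := by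
      intro ψ
      have h2 := (hq' ψ).sub_const (ψ q.val)
      rw [sub_self] at h2
      have h3 := h2.abs
      rw [abs_zero] at h3
      exact h3.eventually (gt_mem_nhds hηpos)
    have hgf : ∀ e : E, ∀ᶠ y in (p : Filter E), |g y e - f e| < η := by
      intro e
      have h2 := (hf e).sub_const (f e)
      rw [sub_self] at h2
      have h3 := h2.abs
      rw [abs_zero] at h3
      exact h3.eventually (gt_mem_nhds hηpos)
    have hKp' : ∀ᶠ y in (p : Filter E), y ∈ K := hKp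
    obtain ⟨y, ⟨⟨hy1, hy2⟩, hy3⟩, hy4⟩ := (((hKp'.and hcon').and hclose).and (hfq f)).exists
    obtain ⟨y', ⟨⟨⟨⟨⟨hy1', hy2'⟩, hy3'⟩, hy4'⟩, hy5'⟩, hy6'⟩, hy7'⟩ :=
      ((((((hKp'.and hcon').and hclose).and (hfq (g y))).and (hp y hy1 r hrc)).and
        (hgf (T (m y)))).and (hgf q.val)).exists
    refine ⟨y, y', hy1, hy1', fun i hi => hy3 i (Finset.mem_range.2 (Nat.lt_succ_of_le hi)),
      fun i hi => hy3' i (Finset.mem_range.2 (Nat.lt_succ_of_le hi)), ?_, ?_, ?_⟩
    · calc ‖T (m y) - T (m y')‖ ≤ ‖m y - m y'‖ := hT _ (hmK _ hy1) _ (hmK _ hy1')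
        _ = t * ‖y' - y‖ := by
          rw [hm1, norm_smul, Real.norm_of_nonneg ht0.le, norm_sub_rev]
        _ ≤ t * r := by gcongr
    · have h1 := hop y ((q.val - τ) + (T (m y) - T (m y')))
      have h2 : g y ((q.val - τ) + (T (m y) - T (m y'))) =
          g y (T (m y) - τ) - (g y (T (m y')) - g y q.val) := by
        simp only [map_add, map_sub]; ring
      rw [h2, hg2] at h1
      have h3 := (abs_lt.1 hy4').2
      linarith
    · have h1 := hop y' ((q.val - τ) - (T (m y) - T (m y')))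
      have h2 : g y' ((q.val - τ) - (T (m y) - T (m y'))) =
          g y' (T (m y') - τ) - (g y' (T (m y)) - g y' q.val) := by
        simp only [map_sub]; ring
      rw [h2, hg2] at h1
      have h3 := (abs_lt.1 hy4).2
      have h4 := (abs_lt.1 hy6').2
      have h5 := (abs_lt.1 hy7').1
      linarith
  choose Y Y' hYK hY'K hY1 hY2 hY3 hY4 hY5 using hstep
  let qk : ℕ → E := fun k => T (m (Y k))
  let qk' : ℕ → E := fun k => T (m (Y' k))
  have hqK : ∀ k, qk k ∈ K := fun k => hTK (hmK _ (hYK k))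
  have hqK' : ∀ k, qk' k ∈ K := fun k => hTK (hmK _ (hY'K k))
  have hconvq : ∀ (w : ℕ → E) (hw : ∀ k, w k ∈ K),
      (∀ k, ∀ i ≤ k, |φ i (w k) - φ i q.val| < 1 / ((k : ℝ) + 1)) →
      Tendsto (fun k => KW.mk (w k) (hw k)) atTop (𝓝 q) := by
    intro w hw hw1
    apply tendsto_of_separating hK hφ
    intro i
    rw [tendsto_iff_norm_sub_tendsto_zero]
    apply squeeze_zero' (Eventually.of_forall fun k => norm_nonneg _) (g := fun k : ℕ => 1 / ((k : ℝ) + 1))
    · filter_upwards [eventually_ge_atTop i] with k hik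
      exact (hw1 k i hik).le
    · exact tendsto_one_div_add_atTop_nhds_zero_nat
  have hc1 := KW.tendsto_iff.1 (hconvq qk hqK hY1)
  have hc2 := KW.tendsto_iff.1 (hconvq qk' hqK' hY2)
  have hres := hE (fun k => r⁻¹ • (qk k - qk' k)) (r⁻¹ • (q.val - τ)) (by
      intro ψ
      have h1 := ((hc1 ψ).sub (hc2 ψ)).const_mul r⁻¹
      rw [sub_self, mul_zero] at h1
      refine h1.congr fun k => ?_
      rw [map_smul, map_sub, smul_eq_mul]
      rfl) (by
      intro k
      rw [norm_smul, Real.norm_of_nonneg (by positivity)]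
      calc r⁻¹ * ‖qk k - qk' k‖ ≤ r⁻¹ * (t * r) := by gcongr; exact hY3 k
        _ = t := by field_simp) (by
      rw [norm_smul, Real.norm_of_nonneg (by positivity)]
      calc r⁻¹ * ‖q.val - τ‖ ≤ r⁻¹ * ((1 - t) * r) := by gcongr
        _ = 1 - t := by field_simp)
  have hval1 : ∀ k, ‖r⁻¹ • (q.val - τ) + r⁻¹ • (qk k - qk' k)‖ =
      r⁻¹ * ‖(q.val - τ) + (qk k - qk' k)‖ := by
    intro k
    rw [← smul_add, norm_smul, Real.norm_of_nonneg (by positivity)]
  have hval2 : ∀ k, ‖r⁻¹ • (q.val - τ) - r⁻¹ • (qk k - qk' k)‖ =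
      r⁻¹ * ‖(q.val - τ) - (qk k - qk' k)‖ := by
    intro k
    rw [← smul_sub, norm_smul, Real.norm_of_nonneg (by positivity)]
  have hlow : (ρ - 3 * η) / r ≤ liminf (fun k => min ‖r⁻¹ • (q.val - τ) + r⁻¹ • (qk k - qk' k)‖
      ‖r⁻¹ • (q.val - τ) - r⁻¹ • (qk k - qk' k)‖) atTop := by
    apply le_liminf_of_le
    · apply IsBoundedUnder.isCoboundedUnder_ge
      refine ⟨r⁻¹ * (‖q.val - τ‖ + t * r), ?_⟩
      simp only [eventually_map]
      refine Eventually.of_forall fun k => ?_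
      refine (min_le_left _ _).trans ?_
      rw [hval1]
      gcongr
      exact (norm_add_le _ _).trans (by gcongr; exact hY3 k)
    · refine Eventually.of_forall fun k => ?_
      rw [hval1, hval2, div_eq_inv_mul]
      refine le_min ?_ ?_
      · gcongr
        exact hY4 k
      · gcongr
        exact hY5 k
  have h1 : (ρ - 3 * η) / r ≤ θ := hlow.trans hres
  rw [div_le_iff₀ hrpos] at h1
  linarith

/-- Uniformly nonsquare spaces satisfy the two sided condition. -/
theorem symCoeff_of_nonsquare {δ : ℝ}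
    (h : ∀ x y : E, ‖x‖ ≤ 1 → ‖y‖ ≤ 1 → min ‖x + y‖ ‖x - y‖ ≤ 2 - δ) :
    SymCoeff E (1 / 2) (1 - δ / 2) := by
  intro u v _ hu hv
  have h2 : ∀ n, min ‖v + u n‖ ‖v - u n‖ ≤ 1 - δ / 2 := by
    intro n
    have h3 := h ((2 : ℝ) • v) ((2 : ℝ) • u n)
      (by rw [norm_smul, Real.norm_of_nonneg (by norm_num)]; linarith)
      (by rw [norm_smul, Real.norm_of_nonneg (by norm_num)]; linarith [hu n])
    rw [← smul_add, ← smul_sub, norm_smul, norm_smul, Real.norm_of_nonneg (by norm_num),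
      ← mul_min_of_nonneg _ _ (by norm_num)] at h3
    linarith
  exact liminf_le_of_frequently_le (Eventually.of_forall h2).frequently
    (isBoundedUnder_of ⟨0, fun n => le_min (norm_nonneg _) (norm_nonneg _)⟩)

end Pool.Agent.LRFix
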