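import Pool.Agent.LibLRFix.Geo

/-!
# The center property for spaces with an unconditional approximation by compact operators
-/

open Filter Topology Set

namespace Pool.Agent.LRFix

variable {E : Type*} [NormedAddCommGroup E] [NormedSpace ℝ E]

/-- Unconditional approximation of the identity by compact operators, with constant `lam`. -/
def UncondApprox (E : Type*) [NormedAddCommGroup E] [NormedSpace ℝ E] (lam : ℝ) : Prop :=
  ∀ ε > 0, ∀ F : Finset E, ∃ T₁ : E →L[ℝ] E, IsCompactOperator T₁ ∧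
    ‖ContinuousLinearMap.id ℝ E - (2 : ℝ) • T₁‖ ≤ lam ∧ (∀ x ∈ F, ‖T₁ x - x‖ ≤ ε) ∧
    ∀ G : Finset E, ∃ T₂ : E →L[ℝ] E, IsCompactOperator T₂ ∧
      ‖ContinuousLinearMap.id ℝ E - (2 : ℝ) • T₂‖ ≤ lam ∧
      ‖ContinuousLinearMap.id ℝ E - (2 : ℝ) • (T₂ - T₁)‖ ≤ lam ∧ ∀ x ∈ G, ‖T₂ x - x‖ ≤ ε

lemma norm_id_sub_le {lam : ℝ} {P : E →L[ℝ] E}
    (hP : ‖ContinuousLinearMap.id ℝ E - (2 : ℝ) • P‖ ≤ lam) (w : E) :
    ‖w - P w‖ ≤ (1 + lam) / 2 * ‖w‖ := by
  have h1 : w - P w = (1 / 2 : ℝ) • (w + (ContinuousLinearMap.id ℝ E - (2 : ℝ) • P) w) := by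
    simp only [ContinuousLinearMap.sub_apply, ContinuousLinearMap.id_apply,
      ContinuousLinearMap.smul_apply]
    module
  have h2 : ‖(ContinuousLinearMap.id ℝ E - (2 : ℝ) • P) w‖ ≤ lam * ‖w‖ :=
    ContinuousLinearMap.le_of_opNorm_le _ hP w
  rw [h1, norm_smul, Real.norm_of_nonneg (by norm_num)]
  have h3 := norm_add_le w ((ContinuousLinearMap.id ℝ E - (2 : ℝ) • P) w)
  linarith

lemma norm_le_of_sym {lam : ℝ} {P : E →L[ℝ] E}
    (hP : ‖ContinuousLinearMap.id ℝ E - (2 : ℝ) • P‖ ≤ lam) (w : E) :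
    ‖P w‖ ≤ (1 + lam) / 2 * ‖w‖ := by
  have h1 : P w = (1 / 2 : ℝ) • (w - (ContinuousLinearMap.id ℝ E - (2 : ℝ) • P) w) := by
    simp only [ContinuousLinearMap.sub_apply, ContinuousLinearMap.id_apply,
      ContinuousLinearMap.smul_apply]
    module
  have h2 : ‖(ContinuousLinearMap.id ℝ E - (2 : ℝ) • P) w‖ ≤ lam * ‖w‖ :=
    ContinuousLinearMap.le_of_opNorm_le _ hP w
  have h3 := norm_sub_le w ((ContinuousLinearMap.id ℝ E - (2 : ℝ) • P) w)
  rw [h1, norm_smul, Real.norm_of_nonneg (by norm_num)]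
  linarith

/-- A compact operator maps weakly null bounded ultrafilter families to norm null ones. -/
lemma compact_norm_null {α : Type*} (p : Ultrafilter α) (a : α → E) {B : ℝ}
    (ha : ∀ᶠ y in (p : Filter α), ‖a y‖ ≤ B)
    (hw : ∀ φ : E →L[ℝ] ℝ, Tendsto (fun y => φ (a y)) p (𝓝 0)) {P : E →L[ℝ] E}
    (hP : IsCompactOperator P) {ε : ℝ} (hε : 0 < ε) :
    ∀ᶠ y in (p : Filter α), ‖P (a y)‖ ≤ ε := by
  obtain ⟨C, hC, hCsub⟩ := hP.image_closedBall_subset_compact (𝕜₁ := ℝ) (f := (P : E →ₗ[ℝ] E)) B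
  obtain ⟨e, -, he⟩ := hC.ultrafilter_le_nhds (p.map fun y => P (a y)) (by
    rw [le_principal_iff]
    change (fun y => P (a y)) ⁻¹' C ∈ (p : Filter α)
    filter_upwards [ha] with y hy
    apply hCsub
    exact ⟨a y, by simpa using hy, rfl⟩)
  have he' : Tendsto (fun y => P (a y)) p (𝓝 e) := he
  have he0 : e = 0 := by
    by_contra hne
    obtain ⟨g, hg1, hg2⟩ := exists_dual_vector'' ℝ e
    have h1 : Tendsto (fun y => g (P (a y))) p (𝓝 (g e)) := (g.continuous.tendsto e).comp he'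
    have h2 : Tendsto (fun y => g (P (a y))) p (𝓝 0) := hw (g.comp P)
    have h3 := tendsto_nhds_unique h1 h2
    rw [hg2] at h3
    have : ‖e‖ = 0 := by exact_mod_cast h3
    exact hne (norm_eq_zero.1 this)
  rw [he0] at he'
  have h1 := he'.norm
  rw [norm_zero] at h1
  filter_upwards [h1.eventually (gt_mem_nhds hε)] with y hy using hy.le

theorem centerProp_of_uncondApprox {lam : ℝ} (hE : UncondApprox E lam) :
    CenterProp E ((1 + lam) * (2 + lam) / 8) := by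
  intro K hK hconv hsep c hc p hKp hp
  have hlam : 0 ≤ lam := by
    obtain ⟨T₁, -, h, -⟩ := hE 1 one_pos ∅
    exact (norm_nonneg _).trans h
  have hKne : K.Nonempty := Ultrafilter.nonempty_of_mem hKp
  obtain ⟨x₀, hx₀⟩ := hKne
  have hcs := KW.compactSpace hK
  classical
  let mk' : E → KW K := fun y => if hy : y ∈ K then KW.mk y hy else KW.mk x₀ hx₀
  have hmk' : ∀ y ∈ K, (mk' y).val = y := by
    intro y hy
    simp only [mk', hy, dif_pos, KW.val_mk]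
  obtain ⟨q, -, hq⟩ := isCompact_univ.ultrafilter_le_nhds (p.map fun y => mk' y) (by simp)
  have hq' : ∀ φ : E →L[ℝ] ℝ, Tendsto (fun y => φ y) p (𝓝 (φ q.val)) := by
    intro φ
    have h1 := KW.tendsto_iff.1 (show Tendsto (fun y => mk' y) p (𝓝 q) from hq) φ
    refine h1.congr' ?_
    filter_upwards [hKp] with y hy
    rw [hmk' _ hy]
  let U : Filter E := (p : Filter E).bind
    (fun y₁ => (p : Filter E).map (fun y₂ => (1 / 2 : ℝ) • (y₁ + y₂)))
  have hU : ∀ P : E → Prop, (∀ᶠ z in U, P z) ↔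
      ∀ᶠ y₁ in (p : Filter E), ∀ᶠ y₂ in (p : Filter E), P ((1 / 2 : ℝ) • (y₁ + y₂)) := by
    intro P
    rw [Filter.eventually_bind]
    rfl
  have hKp' : ∀ᶠ y in (p : Filter E), y ∈ K := hKp
  refine ⟨U, ?_, ?_, ?_⟩
  · refine ⟨fun h => ?_⟩
    have h1 : ∀ᶠ z in U, False := by rw [h]; exact mem_bot
    rw [hU] at h1
    obtain ⟨y, hy⟩ := h1.exists
    exact hy.exists.elim fun _ h => h
  · have h1 : ∀ᶠ z in U, z ∈ K := by
      rw [hU]
      filter_upwards [hKp'] with y₁ h₁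
      filter_upwards [hKp'] with y₂ h₂
      rw [smul_add]
      exact hconv h₁ h₂ (by norm_num) (by norm_num) (by norm_num)
    exact h1
  intro T hTK hT τ hτ hweak ρ hρ
  -- parameters
  set θ : ℝ := (1 + lam) * (2 + lam) / 8 with hθdef
  have hθ : 0 ≤ θ := by rw [hθdef]; positivity
  set η : ℝ := (ρ - θ * c) / (θ + (5 + lam) / 2) with hη
  have hden : 0 < θ + (5 + lam) / 2 := by positivity
  have hηpos : 0 < η := div_pos (by linarith) hden
  have hηeq : θ * (c + η) + (5 + lam) / 2 * η = ρ := by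
    have : η * (θ + (5 + lam) / 2) = ρ - θ * c := by
      rw [hη]; field_simp
    linarith
  obtain ⟨B, hB⟩ := hK.isBounded.exists_norm_le
  have hTa : ∀ φ : E →L[ℝ] ℝ, Tendsto (fun y => φ (T y - τ)) p (𝓝 0) := by
    intro φ
    have := (hweak φ).sub_const (φ τ)
    rw [sub_self] at this
    refine this.congr fun y => ?_
    rw [map_sub]
  have hTb : ∀ᶠ y in (p : Filter E), ‖T y - τ‖ ≤ B + B := by
    filter_upwards [hKp'] with y hy
    exact (norm_sub_le _ _).trans (add_le_add (hB _ (hTK hy)) (hB _ hτ))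
  have hqa : ∀ φ : E →L[ℝ] ℝ, Tendsto (fun y => φ (y - q.val)) p (𝓝 0) := by
    intro φ
    have := (hq' φ).sub_const (φ q.val)
    rw [sub_self] at this
    refine this.congr fun y => ?_
    rw [map_sub]
  have hqb : ∀ᶠ y in (p : Filter E), ‖y - q.val‖ ≤ B + B := by
    filter_upwards [hKp'] with y hy
    exact (norm_sub_le _ _).trans (add_le_add (hB _ hy) (hB _ q.mem))
  rw [hU]
  obtain ⟨T₁, hT₁c, hT₁n, hT₁F, hT₁G⟩ := hE η hηpos {T q.val - τ}
  have hF1 := hT₁F _ (Finset.mem_singleton_self _)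
  filter_upwards [hKp', compact_norm_null p _ hTb hTa hT₁c hηpos] with y₁ hy₁ hy₁T
  obtain ⟨T₂, hT₂c, hT₂n, hT₂d, hT₂F⟩ := hT₁G {T y₁ - τ}
  have hF2 := hT₂F _ (Finset.mem_singleton_self _)
  obtain ⟨T₃, hT₃c, hT₃n, hT₃F, -⟩ := hE η hηpos {y₁ - q.val}
  have hF3 := hT₃F _ (Finset.mem_singleton_self _)
  filter_upwards [hKp', hp y₁ hy₁ (c + η) (by linarith), compact_norm_null p _ hTb hTa hT₂c hηpos,
    compact_norm_null p _ hqb hqa hT₃c hηpos] with y₂ hy₂ hy₂r hy₂T hy₂q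
  set z : E := (1 / 2 : ℝ) • (y₁ + y₂) with hz
  have hzK : z ∈ K := by
    rw [hz, smul_add]
    exact hconv hy₁ hy₂ (by norm_num) (by norm_num) (by norm_num)
  have hzy₁ : ‖z - y₁‖ ≤ (c + η) / 2 := by
    have : z - y₁ = (1 / 2 : ℝ) • (y₂ - y₁) := by rw [hz]; module
    rw [this, norm_smul, Real.norm_of_nonneg (by norm_num)]
    linarith
  have hzy₂ : ‖z - y₂‖ ≤ (c + η) / 2 := by
    have : z - y₂ = (1 / 2 : ℝ) • (y₁ - y₂) := by rw [hz]; module
    rw [this, norm_smul, Real.norm_of_nonneg (by norm_num), norm_sub_rev]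
    linarith
  have hzq : ‖z - q.val‖ ≤ lam * (c + η) / 2 + 2 * η := by
    have h1 : z - q.val = (1 / 2 : ℝ) • ((ContinuousLinearMap.id ℝ E - (2 : ℝ) • T₃) (y₂ - y₁)
        + (2 : ℝ) • T₃ (y₂ - q.val) - (2 : ℝ) • (T₃ (y₁ - q.val) - (y₁ - q.val))) := by
      simp only [ContinuousLinearMap.sub_apply, ContinuousLinearMap.id_apply,
        ContinuousLinearMap.smul_apply, map_sub, hz]
      module
    have h2 : ‖(ContinuousLinearMap.id ℝ E - (2 : ℝ) • T₃) (y₂ - y₁)‖ ≤ lam * (c + η) := by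
      refine (ContinuousLinearMap.le_of_opNorm_le _ hT₃n _).trans ?_
      gcongr
    rw [h1, norm_smul, Real.norm_of_nonneg (by norm_num)]
    have h3 : ‖(2 : ℝ) • T₃ (y₂ - q.val)‖ ≤ 2 * η := by
      rw [norm_smul, Real.norm_of_nonneg (by norm_num)]; linarith
    have h4 : ‖(2 : ℝ) • (T₃ (y₁ - q.val) - (y₁ - q.val))‖ ≤ 2 * η := by
      rw [norm_smul, Real.norm_of_nonneg (by norm_num)]; linarith
    have h5 := norm_sub_le ((ContinuousLinearMap.id ℝ E - (2 : ℝ) • T₃) (y₂ - y₁)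
        + (2 : ℝ) • T₃ (y₂ - q.val)) ((2 : ℝ) • (T₃ (y₁ - q.val) - (y₁ - q.val)))
    have h6 := norm_add_le ((ContinuousLinearMap.id ℝ E - (2 : ℝ) • T₃) (y₂ - y₁))
        ((2 : ℝ) • T₃ (y₂ - q.val))
    linarith
  have hT1 := (hT z hzK y₁ hy₁).trans hzy₁
  have hT2 := (hT z hzK y₂ hy₂).trans hzy₂
  have hT3 := (hT z hzK q.val q.mem).trans hzq
  -- decomposition
  have hdec : T z - τ = (1 / 2 : ℝ) • (((T z - T y₁) - (T₂ - T₁) (T z - T y₁))
      + ((T y₁ - τ) - T₂ (T y₁ - τ)) + T₁ (T y₁ - τ)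
      + T₂ (T z - T y₂) + T₂ (T y₂ - τ)
      + ((T z - T q.val) - T₁ (T z - T q.val))
      + ((T q.val - τ) - T₁ (T q.val - τ))) := by
    simp only [ContinuousLinearMap.sub_apply, map_sub]
    module
  have e1 : ‖(T z - T y₁) - (T₂ - T₁) (T z - T y₁)‖ ≤ (1 + lam) / 2 * ((c + η) / 2) := by
    refine (norm_id_sub_le hT₂d _).trans ?_
    gcongr
  have e2 : ‖(T y₁ - τ) - T₂ (T y₁ - τ)‖ ≤ η := by rw [norm_sub_rev]; exact hF2
  have e3 : ‖T₂ (T z - T y₂)‖ ≤ (1 + lam) / 2 * ((c + η) / 2) := by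
    refine (norm_le_of_sym hT₂n _).trans ?_
    gcongr
  have e4 : ‖(T z - T q.val) - T₁ (T z - T q.val)‖ ≤
      (1 + lam) / 2 * (lam * (c + η) / 2 + 2 * η) := by
    refine (norm_id_sub_le hT₁n _).trans ?_
    gcongr
  have e5 : ‖(T q.val - τ) - T₁ (T q.val - τ)‖ ≤ η := by rw [norm_sub_rev]; exact hF1
  rw [hdec, norm_smul, Real.norm_of_nonneg (by norm_num)]
  have n1 := norm_add_le (((T z - T y₁) - (T₂ - T₁) (T z - T y₁))
      + ((T y₁ - τ) - T₂ (T y₁ - τ)) + T₁ (T y₁ - τ)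
      + T₂ (T z - T y₂) + T₂ (T y₂ - τ)
      + ((T z - T q.val) - T₁ (T z - T q.val))) ((T q.val - τ) - T₁ (T q.val - τ))
  have n2 := norm_add_le (((T z - T y₁) - (T₂ - T₁) (T z - T y₁))
      + ((T y₁ - τ) - T₂ (T y₁ - τ)) + T₁ (T y₁ - τ)
      + T₂ (T z - T y₂) + T₂ (T y₂ - τ))
      ((T z - T q.val) - T₁ (T z - T q.val))
  have n3 := norm_add_le (((T z - T y₁) - (T₂ - T₁) (T z - T y₁))
      + ((T y₁ - τ) - T₂ (T y₁ - τ)) + T₁ (T y₁ - τ)
      + T₂ (T z - T y₂)) (T₂ (T y₂ - τ))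
  have n4 := norm_add_le (((T z - T y₁) - (T₂ - T₁) (T z - T y₁))
      + ((T y₁ - τ) - T₂ (T y₁ - τ)) + T₁ (T y₁ - τ)) (T₂ (T z - T y₂))
  have n5 := norm_add_le (((T z - T y₁) - (T₂ - T₁) (T z - T y₁))
      + ((T y₁ - τ) - T₂ (T y₁ - τ))) (T₁ (T y₁ - τ))
  have n6 := norm_add_le ((T z - T y₁) - (T₂ - T₁) (T z - T y₁))
      ((T y₁ - τ) - T₂ (T y₁ - τ))
  have hfin : (1 / 2 : ℝ) * ((1 + lam) / 2 * ((c + η) / 2) + η + η + (1 + lam) / 2 * ((c + η) / 2)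
      + η + (1 + lam) / 2 * (lam * (c + η) / 2 + 2 * η) + η) = ρ := by
    rw [← hηeq, hθdef]; ring
  calc _ ≤ (1 / 2 : ℝ) * ((1 + lam) / 2 * ((c + η) / 2) + η + η + (1 + lam) / 2 * ((c + η) / 2)
      + η + (1 + lam) / 2 * (lam * (c + η) / 2 + 2 * η) + η) := by
        gcongr
        linarith
    _ = ρ := hfin

end Pool.Agent.LRFix
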