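import Mathlib

/-!
# Coherent sequences of right multiples in a left reversible monoid
-/

open Filter Topology Set

namespace Pool.Agent.LRFix

variable {S : Type*} [Monoid S]

/-- Algebraic left reversibility: any two principal right ideals meet. -/
def LeftRev (S : Type*) [Mul S] : Prop := ∀ a b : S, ∃ c d : S, a * c = b * d

lemma LeftRev.many (hS : LeftRev S) : ∀ (n : ℕ) (a b : ℕ → S),
    ∃ d : S, ∀ j < n, ∃ c : S, a j * d = b j * c := by
  intro n a b
  induction n with
  | zero => exact ⟨1, fun j hj => absurd hj (Nat.not_lt_zero j)⟩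
  | succ n ih =>
    obtain ⟨d, hd⟩ := ih
    obtain ⟨e, f, hef⟩ := hS (a n * d) (b n)
    refine ⟨d * e, fun j hj => ?_⟩
    rcases Nat.lt_succ_iff_lt_or_eq.1 hj with hj | rfl
    · obtain ⟨c, hc⟩ := hd j hj
      exact ⟨c * e, by rw [← mul_assoc, hc, mul_assoc]⟩
    · exact ⟨f, by rw [← mul_assoc, hef]⟩

/-- The one step extension of the coherent system. -/
lemma LeftRev.step (hS : LeftRev S) (h : ℕ → S) (N : ℕ) (d D : S) (c : ℕ → S) :
    ∃ (d' : S) (c' : ℕ → S), (∀ j < N, c j * d' = d * c' j) ∧ D * d' = h N * D * c' N := by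
  classical
  obtain ⟨d', hd'⟩ := hS.many (N + 1) (fun j => if j < N then c j else D)
    (fun j => if j < N then d else h N * D)
  have hex : ∀ j, ∃ x : S, j < N + 1 →
      (if j < N then c j else D) * d' = (if j < N then d else h N * D) * x := by
    intro j
    by_cases hj : j < N + 1
    · obtain ⟨x, hx⟩ := hd' j hj
      exact ⟨x, fun _ => hx⟩
    · exact ⟨1, fun hh => absurd hh hj⟩
  choose c' hc' using hex
  refine ⟨d', c', fun j hj => ?_, ?_⟩
  · have := hc' j (by omega)
    simpa [hj] using this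
  · have := hc' N (by omega)
    simpa using this

/-- A coherent system in a left reversible monoid. -/
structure Coh (h : ℕ → S) where
  d : ℕ → S
  D : ℕ → S
  c : ℕ → ℕ → S
  D_zero : D 0 = 1
  D_succ : ∀ N, D (N + 1) = D N * d (N + 1)
  c_comm : ∀ N, ∀ j < N, c N j * d (N + 1) = d N * c (N + 1) j
  D_div : ∀ N, ∀ j ≤ N, D (N + 1) = h j * D N * c (N + 1) j

/-- The recursively chosen data: `(d N, D N, c N)`. -/
noncomputable def cohAux (hS : LeftRev S) (h : ℕ → S) : ℕ → S × S × (ℕ → S)
  | 0 => (1, 1, fun _ => 1)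
  | N + 1 =>
    let p := cohAux hS h N
    let e := hS.step h N p.1 p.2.1 p.2.2
    (e.choose, p.2.1 * e.choose, e.choose_spec.choose)

lemma cohAux_spec (hS : LeftRev S) (h : ℕ → S) (N : ℕ) :
    (∀ j < N, (cohAux hS h N).2.2 j * (cohAux hS h (N + 1)).1
      = (cohAux hS h N).1 * (cohAux hS h (N + 1)).2.2 j) ∧
    (cohAux hS h N).2.1 * (cohAux hS h (N + 1)).1
      = h N * (cohAux hS h N).2.1 * (cohAux hS h (N + 1)).2.2 N := by
  have e := hS.step h N (cohAux hS h N).1 (cohAux hS h N).2.1 (cohAux hS h N).2.2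
  exact e.choose_spec.choose_spec

lemma exists_coh (hS : LeftRev S) (h : ℕ → S) : Nonempty (Coh h) := by
  refine ⟨⟨fun N => (cohAux hS h N).1, fun N => (cohAux hS h N).2.1,
    fun N => (cohAux hS h N).2.2, rfl, fun N => rfl, fun N => (cohAux_spec hS h N).1, ?_⟩⟩
  intro N
  induction N with
  | zero =>
    intro j hj
    obtain rfl : j = 0 := by omega
    exact (cohAux_spec hS h 0).2
  | succ N ih =>
    intro j hj
    rcases Nat.lt_or_ge j (N + 1) with hj' | hj'
    · have h1 := ih j (by omega)
      have h2 := (cohAux_spec hS h (N + 1)).1 j hj'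
      have h3 : (cohAux hS h (N + 1 + 1)).2.1
          = (cohAux hS h (N + 1)).2.1 * (cohAux hS h (N + 1 + 1)).1 := rfl
      have h4 : (cohAux hS h (N + 1)).2.1
          = (cohAux hS h N).2.1 * (cohAux hS h (N + 1)).1 := rfl
      calc (cohAux hS h (N + 1 + 1)).2.1
          = (h j * (cohAux hS h N).2.1 * (cohAux hS h (N + 1)).2.2 j)
              * (cohAux hS h (N + 1 + 1)).1 := by rw [h3, ← h1]
        _ = h j * (cohAux hS h N).2.1 * ((cohAux hS h (N + 1)).1
              * (cohAux hS h (N + 1 + 1)).2.2 j) := by rw [mul_assoc, h2]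
        _ = h j * ((cohAux hS h N).2.1 * (cohAux hS h (N + 1)).1)
              * (cohAux hS h (N + 1 + 1)).2.2 j := by simp only [mul_assoc]
        _ = _ := by rw [← h4]
    · obtain rfl : j = N + 1 := by omega
      exact (cohAux_spec hS h (N + 1)).2

namespace Coh

variable {h : ℕ → S} (C : Coh h)

/-- Validity of a word at a level. -/
def V : ℕ → List ℕ → Prop
  | _, [] => True
  | 0, _ :: _ => False
  | N + 1, j :: w => j ≤ N ∧ V N w

/-- The node at the word `w` of the tree of level `N`. -/
def X : ℕ → List ℕ → S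
  | N, [] => C.D N
  | 0, _ :: _ => 1
  | N + 1, j :: w => X N w * C.c (N + 1) j

/-- The product of the letters of a word. -/
def hp (h : ℕ → S) : List ℕ → S
  | [] => 1
  | j :: w => h j * hp h w

lemma V_nil (N : ℕ) : V N [] := by cases N <;> trivial

lemma X_nil (N : ℕ) : C.X N [] = C.D N := by cases N <;> rfl

lemma X_cons (N j : ℕ) (w : List ℕ) : C.X (N + 1) (j :: w) = C.X N w * C.c (N + 1) j := rfl

lemma V_succ : ∀ (w : List ℕ) (N : ℕ), V N w → V (N + 1) w := by
  intro w
  induction w with
  | nil => intro N _; exact V_nil _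
  | cons j w ih =>
    intro N hN
    cases N with
    | zero => exact absurd hN id
    | succ N => exact ⟨by have := hN.1; omega, ih N hN.2⟩

lemma V_mono (w : List ℕ) {N M : ℕ} (hNM : N ≤ M) (hN : V N w) : V M w := by
  induction hNM with
  | refl => exact hN
  | step _ ih => exact V_succ _ _ ih

lemma V_eventually : ∀ (w : List ℕ), ∃ N, V N w := by
  intro w
  induction w with
  | nil => exact ⟨0, V_nil 0⟩
  | cons j w ih =>
    obtain ⟨N, hN⟩ := ih
    exact ⟨max N j + 1, by
      refine ⟨le_max_right _ _, V_mono w (le_max_left _ _) hN⟩⟩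

lemma X_succ : ∀ (w : List ℕ) (N : ℕ), V N w → C.X (N + 1) w = C.X N w * C.d (N + 1) := by
  intro w
  induction w with
  | nil => intro N _; rw [X_nil, X_nil, C.D_succ]
  | cons j w ih =>
    intro N hN
    cases N with
    | zero => exact absurd hN id
    | succ N =>
      rw [X_cons, X_cons, ih N hN.2, mul_assoc, mul_assoc,
        C.c_comm (N + 1) j (by have := hN.1; omega)]

lemma X_snoc : ∀ (w : List ℕ) (N j : ℕ), V N (w ++ [j]) →
    V N w ∧ C.X N w = h j * C.X N (w ++ [j]) := by
  intro w
  induction w with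
  | nil =>
    intro N j hN
    cases N with
    | zero => exact absurd hN id
    | succ N =>
      refine ⟨V_nil _, ?_⟩
      have h1 : C.X (N + 1) ([] ++ [j]) = C.X N [] * C.c (N + 1) j := rfl
      rw [h1, X_nil, X_nil, C.D_div N j hN.1, mul_assoc]
  | cons i w ih =>
    intro N j hN
    cases N with
    | zero => exact absurd hN id
    | succ N =>
      have h1 := ih N j hN.2
      refine ⟨⟨hN.1, h1.1⟩, ?_⟩
      have h2 : C.X (N + 1) (i :: w ++ [j]) = C.X N (w ++ [j]) * C.c (N + 1) i := rfl
      rw [h2, X_cons, h1.2, mul_assoc]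

lemma X_append : ∀ (w' w : List ℕ) (N : ℕ), V N (w ++ w') →
    V N w ∧ C.X N w = hp h w' * C.X N (w ++ w') := by
  intro w'
  induction w' with
  | nil => intro w N hN; simpa [hp] using hN
  | cons j w' ih =>
    intro w N hN
    have e : w ++ j :: w' = (w ++ [j]) ++ w' := by simp
    rw [e] at hN ⊢
    have h1 := ih (w ++ [j]) N hN
    have h2 := C.X_snoc w N j h1.1
    refine ⟨h2.1, ?_⟩
    rw [h2.2, h1.2, hp, mul_assoc]

lemma X_large : ∀ (w : List ℕ) (N : ℕ), V N w → ∃ s, C.X N w = C.D (N - w.length) * s := by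
  intro w
  induction w with
  | nil => intro N _; exact ⟨1, by rw [X_nil]; simp⟩
  | cons j w ih =>
    intro N hN
    cases N with
    | zero => exact absurd hN id
    | succ N =>
      obtain ⟨s, hs⟩ := ih N hN.2
      refine ⟨s * C.c (N + 1) j, ?_⟩
      rw [X_cons, hs, mul_assoc]
      simp

lemma D_div' (j N : ℕ) (hN : j < N) : ∃ t, C.D N = h j * t := by
  cases N with
  | zero => omega
  | succ N =>
    exact ⟨C.D N * C.c (N + 1) j, by rw [C.D_div N j (by omega), mul_assoc]⟩

end Coh

end Pool.Agent.LRFix
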