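import Pool.Agent.LibLRFix.Basic
import Pool.Agent.LibLRFix.Seq

/-!
# Nonexpansive actions, minimal invariant sets
-/

open Filter Topology Set

namespace Pool.Agent.LRFix

set_option linter.unusedSectionVars false

variable {E : Type*} [NormedAddCommGroup E] [NormedSpace ℝ E]
variable {S : Type*} [Monoid S]

/-- A nonexpansive action of a monoid on `K`, given by maps of the whole space which are
only considered on `K`. -/
structure Act (f : S → E → E) (K : Set E) : Prop where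
  maps : ∀ s, ∀ x ∈ K, f s x ∈ K
  one : ∀ x ∈ K, f 1 x = x
  mul : ∀ s t, ∀ x ∈ K, f (s * t) x = f s (f t x)
  ne : ∀ s, ∀ x ∈ K, ∀ y ∈ K, ‖f s x - f s y‖ ≤ ‖x - y‖

lemma Act.mono {f : S → E → E} {K M : Set E} (hf : Act f K) (hM : M ⊆ K)
    (hinv : ∀ s, ∀ x ∈ M, f s x ∈ M) : Act f M :=
  ⟨hinv, fun x hx => hf.one x (hM hx), fun s t x hx => hf.mul s t x (hM hx),
    fun s x hx y hy => hf.ne s x (hM hx) y (hM hy)⟩

/-- `K` is a minimal nonempty closed convex invariant set. -/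
structure MinInv (f : S → E → E) (K : Set E) : Prop where
  nonempty : K.Nonempty
  closed : IsClosed K
  convex : Convex ℝ K
  min : ∀ C ⊆ K, C.Nonempty → IsClosed C → Convex ℝ C → (∀ s, ∀ x ∈ C, f s x ∈ C) → C = K

lemma WeaklyCompact.isClosed {K : Set E} (hK : WeaklyCompact K) : IsClosed K := by
  have h1 : IsClosed (toWeakSpace ℝ E '' K) := IsCompact.isClosed hK
  have h2 : Continuous (toWeakSpace ℝ E : E → WeakSpace ℝ E) :=
    (toWeakSpaceCLM ℝ E).continuous
  have h3 := h1.preimage h2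
  rwa [preimage_image_eq K (toWeakSpace ℝ E).injective] at h3

lemma KW.isClosed_of_convex {K C : Set E} (hC : IsClosed C) (hconv : Convex ℝ C) :
    IsClosed {x : KW K | x.val ∈ C} := by
  have h1 : IsClosed (toWeakSpace ℝ E '' C) := by
    have := hconv.toWeakSpace_closure (𝕜 := ℝ)
    rw [hC.closure_eq] at this
    rw [this]
    exact isClosed_closure
  have h2 := h1.preimage (KW.continuous_toW (K := K))
  have h3 : (KW.toW (K := K)) ⁻¹' (toWeakSpace ℝ E '' C) = {x : KW K | x.val ∈ C} := by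
    ext x
    constructor
    · rintro ⟨y, hy, hxy⟩
      have : y = x.val := (toWeakSpace ℝ E).injective hxy
      change x.val ∈ C
      rw [← this]
      exact hy
    · intro hx
      exact ⟨x.val, hx, rfl⟩
  rwa [h3] at h2

lemma WeaklyCompact.mono {K C : Set E} (hK : WeaklyCompact K) (hCK : C ⊆ K) (hC : IsClosed C)
    (hconv : Convex ℝ C) : WeaklyCompact C := by
  have h1 : IsClosed (toWeakSpace ℝ E '' C) := by
    have := hconv.toWeakSpace_closure (𝕜 := ℝ)
    rw [hC.closure_eq] at this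
    rw [this]
    exact isClosed_closure
  exact IsCompact.of_isClosed_subset hK h1 (image_mono hCK)

/-- Existence of minimal invariant sets. -/
lemma exists_minInv {K : Set E} (hK : WeaklyCompact K) (hne : K.Nonempty) (hconv : Convex ℝ K)
    {f : S → E → E} (hf : Act f K) :
    ∃ M ⊆ K, MinInv f M ∧ (∀ s, ∀ x ∈ M, f s x ∈ M) := by
  have := KW.compactSpace hK
  let F : Set (Set E) := {C | C ⊆ K ∧ C.Nonempty ∧ IsClosed C ∧ Convex ℝ C ∧
    ∀ s, ∀ x ∈ C, f s x ∈ C}
  have hKF : K ∈ F := ⟨Subset.rfl, hne, hK.isClosed, hconv, hf.maps⟩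
  obtain ⟨M, hMK, hM⟩ := zorn_superset_nonempty F (by
    intro c hcF hchain hcne
    refine ⟨⋂₀ c, ⟨?_, ?_, ?_, ?_, ?_⟩, fun s hs => sInter_subset_of_mem hs⟩
    · obtain ⟨C, hC⟩ := hcne
      exact (sInter_subset_of_mem hC).trans (hcF hC).1
    · -- nonempty
      have : Nonempty c := hcne.to_subtype
      have h1 : (⋂ C : c, {x : KW K | x.val ∈ (C : Set E)}).Nonempty := by
        apply IsCompact.nonempty_iInter_of_directed_nonempty_isCompact_isClosed
        · intro A B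
          rcases hchain.total A.2 B.2 with h | h
          · exact ⟨A, fun x hx => hx, fun x hx => h hx⟩
          · exact ⟨B, fun x hx => h hx, fun x hx => hx⟩
        · intro A
          obtain ⟨x, hx⟩ := (hcF A.2).2.1
          exact ⟨KW.mk x ((hcF A.2).1 hx), hx⟩
        · intro A
          exact (KW.isClosed_of_convex (hcF A.2).2.2.1 (hcF A.2).2.2.2.1).isCompact
        · intro A
          exact KW.isClosed_of_convex (hcF A.2).2.2.1 (hcF A.2).2.2.2.1
      obtain ⟨x, hx⟩ := h1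
      refine ⟨x.val, ?_⟩
      rw [mem_sInter]
      intro A hA
      exact mem_iInter.1 hx ⟨A, hA⟩
    · exact isClosed_sInter fun A hA => (hcF hA).2.2.1
    · exact convex_sInter fun A hA => (hcF hA).2.2.2.1
    · intro s x hx
      rw [mem_sInter] at hx ⊢
      intro A hA
      exact (hcF hA).2.2.2.2 s x (hx A hA)) K hKF
  refine ⟨M, hMK, ⟨hM.prop.2.1, hM.prop.2.2.1, hM.prop.2.2.2.1, ?_⟩, hM.prop.2.2.2.2⟩
  intro C hCM hCne hCcl hCconv hCinv
  exact Subset.antisymm hCM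
    (hM.le_of_le ⟨hCM.trans hM.prop.1, hCne, hCcl, hCconv, hCinv⟩ hCM)

/-- The basic constancy principle on minimal invariant sets. -/
lemma MinInv.spread {K : Set E} {f : S → E → E} (hM : MinInv f K)
    (hmaps : ∀ s, ∀ x ∈ K, f s x ∈ K) (P : E → ℝ → Prop)
    (hlip : ∀ v ∈ K, ∀ v' ∈ K, ∀ r, P v r → P v' (r + ‖v - v'‖))
    (hmono : ∀ v ∈ K, ∀ r r', r ≤ r' → P v r → P v r')
    (hconv : ∀ v ∈ K, ∀ v' ∈ K, ∀ r a b : ℝ, 0 ≤ a → 0 ≤ b → a + b = 1 → P v r → P v' r →
      P (a • v + b • v') r)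
    (hinv : ∀ s, ∀ v ∈ K, ∀ r, P v r → P (f s v) r)
    {v₀ : E} (hv₀ : v₀ ∈ K) {r : ℝ} (h : ∀ ε > 0, P v₀ (r + ε)) :
    ∀ v ∈ K, ∀ ε > 0, P v (r + ε) := by
  let C : Set E := {v | v ∈ K ∧ ∀ ε > 0, P v (r + ε)}
  have hCK : C = K := by
    apply hM.min C (fun v hv => hv.1) ⟨v₀, hv₀, h⟩
    · -- closed
      rw [← isSeqClosed_iff_isClosed]
      intro u v hu huv
      have hvK : v ∈ K := hM.closed.mem_of_tendsto huv (Eventually.of_forall fun n => (hu n).1)
      refine ⟨hvK, fun ε hε => ?_⟩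
      have h1 : ∀ᶠ n in atTop, ‖u n - v‖ < ε / 2 := by
        have := (tendsto_iff_norm_sub_tendsto_zero.1 huv).eventually
          (gt_mem_nhds (show (0 : ℝ) < ε / 2 by linarith))
        exact this
      obtain ⟨n, hn⟩ := h1.exists
      refine hmono v hvK _ _ ?_ (hlip (u n) (hu n).1 v hvK _ ((hu n).2 (ε / 2) (by linarith)))
      linarith
    · -- convex
      intro x hx y hy a b ha hb hab
      exact ⟨hM.convex hx.1 hy.1 ha hb hab,
        fun ε hε => hconv x hx.1 y hy.1 _ a b ha hb hab (hx.2 ε hε) (hy.2 ε hε)⟩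
    · intro s x hx
      exact ⟨hmaps s x hx.1, fun ε hε => hinv s x hx.1 _ (hx.2 ε hε)⟩
  intro v hv
  rw [← hCK] at hv
  exact hv.2

/-- The predicate behind the asymptotic radius functional of the whole set. -/
def Q (f : S → E → E) (K : Set E) (v : E) (r : ℝ) : Prop := ∃ a : S, ∀ u ∈ K, ‖v - f a u‖ ≤ r

section

variable {K : Set E} {f : S → E → E}

lemma Q_spread (hS : LeftRev S) (hf : Act f K) (hM : MinInv f K) {v₀ : E} (hv₀ : v₀ ∈ K)
    {r : ℝ} (h : ∀ ε > 0, Q f K v₀ (r + ε)) : ∀ v ∈ K, ∀ ε > 0, Q f K v (r + ε) := by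
  apply hM.spread hf.maps (Q f K) _ _ _ _ hv₀ h
  · rintro v hv v' hv' r ⟨a, ha⟩
    refine ⟨a, fun u hu => ?_⟩
    calc ‖v' - f a u‖ = ‖(v - f a u) - (v - v')‖ := by congr 1; abel
      _ ≤ ‖v - f a u‖ + ‖v - v'‖ := norm_sub_le _ _
      _ ≤ r + ‖v - v'‖ := by linarith [ha u hu]
  · rintro v hv r r' hrr ⟨a, ha⟩
    exact ⟨a, fun u hu => (ha u hu).trans hrr⟩
  · rintro v hv v' hv' r a b ha hb hab ⟨s, hs⟩ ⟨t, ht⟩
    obtain ⟨c, d, hcd⟩ := hS s t
    refine ⟨s * c, fun u hu => ?_⟩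
    have h1 : ‖v - f (s * c) u‖ ≤ r := by
      rw [hf.mul s c u hu]; exact hs _ (hf.maps c u hu)
    have h2 : ‖v' - f (s * c) u‖ ≤ r := by
      rw [hcd, hf.mul t d u hu]; exact ht _ (hf.maps d u hu)
    calc ‖a • v + b • v' - f (s * c) u‖
        = ‖a • (v - f (s * c) u) + b • (v' - f (s * c) u)‖ := by
          congr 1
          have : f (s * c) u = (a + b) • f (s * c) u := by rw [hab, one_smul]
          rw [smul_sub, smul_sub]
          nth_rewrite 1 [this]
          rw [add_smul]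
          abel
      _ ≤ ‖a • (v - f (s * c) u)‖ + ‖b • (v' - f (s * c) u)‖ := norm_add_le _ _
      _ = a * ‖v - f (s * c) u‖ + b * ‖v' - f (s * c) u‖ := by
          rw [norm_smul, norm_smul, Real.norm_of_nonneg ha, Real.norm_of_nonneg hb]
      _ ≤ a * r + b * r := by gcongr
      _ = r := by rw [← add_mul, hab, one_mul]
  · rintro s v hv r ⟨a, ha⟩
    refine ⟨s * a, fun u hu => ?_⟩
    rw [hf.mul s a u hu]
    exact (hf.ne s v hv _ (hf.maps a u hu)).trans (ha u hu)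

/-- The asymptotic radius is constant on a minimal set. -/
lemma exists_radius (hS : LeftRev S) (hf : Act f K) (hM : MinInv f K) (hbdd : Bornology.IsBounded K) :
    ∃ c : ℝ, 0 ≤ c ∧ (∀ v ∈ K, ∀ r > c, Q f K v r) ∧ (∀ v ∈ K, ∀ r < c, ¬ Q f K v r) := by
  obtain ⟨v₀, hv₀⟩ := hM.nonempty
  let T : Set ℝ := {r | Q f K v₀ r}
  have hT0 : ∀ r ∈ T, 0 ≤ r := by
    rintro r ⟨a, ha⟩
    exact (norm_nonneg _).trans (ha v₀ hv₀)
  have hTbdd : BddBelow T := ⟨0, hT0⟩
  have hTne : T.Nonempty := by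
    obtain ⟨R, hR⟩ := hbdd.exists_norm_le
    refine ⟨R + R, 1, fun u hu => ?_⟩
    rw [hf.one u hu]
    exact (norm_sub_le _ _).trans (add_le_add (hR _ hv₀) (hR _ hu))
  have hmono : ∀ v, ∀ r r', r ≤ r' → Q f K v r → Q f K v r' := by
    rintro v r r' hrr ⟨a, ha⟩
    exact ⟨a, fun u hu => (ha u hu).trans hrr⟩
  have h0 : ∀ ε > 0, Q f K v₀ (sInf T + ε) := by
    intro ε hε
    obtain ⟨r, hr, hrlt⟩ := exists_lt_of_csInf_lt hTne (show sInf T < sInf T + ε by linarith)
    exact hmono _ _ _ hrlt.le hr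
  refine ⟨sInf T, le_csInf hTne hT0, ?_, ?_⟩
  · intro v hv r hr
    have := Q_spread hS hf hM hv₀ h0 v hv (r - sInf T) (by linarith)
    simpa using this
  · intro v hv r hr hQ
    have h1 : ∀ ε > 0, Q f K v (r + ε) := fun ε hε => hmono _ _ _ (by linarith) hQ
    have h2 := Q_spread hS hf hM hv h1 v₀ hv₀ ((sInf T - r) / 2) (by linarith)
    have h3 : sInf T ≤ r + (sInf T - r) / 2 := csInf_le hTbdd h2
    linarith

/-- If the asymptotic radius vanishes there is a common fixed point. -/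
lemma fixed_of_radius_zero (hS : LeftRev S) (hf : Act f K) (hM : MinInv f K)
    (h0 : ∀ v ∈ K, ∀ r > 0, Q f K v r) : ∃ x ∈ K, ∀ s, f s x = x := by
  obtain ⟨v₀, hv₀⟩ := hM.nonempty
  have hall : ∀ v ∈ K, v = v₀ := by
    intro v hv
    by_contra hne
    have hpos : 0 < ‖v - v₀‖ := norm_pos_iff.2 (sub_ne_zero.2 hne)
    obtain ⟨a, ha⟩ := h0 v hv (‖v - v₀‖ / 4) (by linarith)
    obtain ⟨b, hb⟩ := h0 v₀ hv₀ (‖v - v₀‖ / 4) (by linarith)
    obtain ⟨c, d, hcd⟩ := hS a b
    have h1 : ‖v - f (a * c) v₀‖ ≤ ‖v - v₀‖ / 4 := by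
      rw [hf.mul a c _ hv₀]; exact ha _ (hf.maps c _ hv₀)
    have h2 : ‖v₀ - f (a * c) v₀‖ ≤ ‖v - v₀‖ / 4 := by
      rw [hcd, hf.mul b d _ hv₀]; exact hb _ (hf.maps d _ hv₀)
    have h3 : ‖v - v₀‖ ≤ ‖v - f (a * c) v₀‖ + ‖v₀ - f (a * c) v₀‖ := by
      calc ‖v - v₀‖ = ‖(v - f (a * c) v₀) - (v₀ - f (a * c) v₀)‖ := by congr 1; abel
        _ ≤ _ := norm_sub_le _ _
    linarith
  exact ⟨v₀, hv₀, fun s => hall _ (hf.maps s v₀ hv₀)⟩

/-- Weak compactness gives a common near point. -/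
lemma exists_center (hK : WeaklyCompact K) (hne : K.Nonempty) (r : ℝ)
    (h : ∀ F : Finset E, (∀ v ∈ F, v ∈ K) → ∃ y ∈ K, ∀ v ∈ F, ‖y - v‖ ≤ r) :
    ∃ z ∈ K, ∀ v ∈ K, ‖z - v‖ ≤ r := by
  classical
  have := KW.compactSpace hK
  have h1 : (⋂ v : K, {x : KW K | ‖x.val - v.1‖ ≤ r}).Nonempty := by
    have h2 := isCompact_univ.inter_iInter_nonempty
      (fun v : K => {x : KW K | ‖x.val - v.1‖ ≤ r}) (fun v => KW.isClosed_ball v.1 r) (by
        intro F
        obtain ⟨y, hyK, hy⟩ := h (F.image Subtype.val) (by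
          intro v hv
          obtain ⟨w, -, rfl⟩ := Finset.mem_image.1 hv
          exact w.2)
        refine ⟨KW.mk y hyK, trivial, ?_⟩
        simp only [mem_iInter]
        intro v hv
        exact hy v.1 (Finset.mem_image_of_mem _ hv))
    rwa [univ_inter] at h2
  obtain ⟨z, hz⟩ := h1
  exact ⟨z.val, z.mem, fun v hv => mem_iInter.1 hz ⟨v, hv⟩⟩

/-- Orbits of points leave every ball of radius smaller than the asymptotic radius. -/
lemma orbit_far (hK : WeaklyCompact K) (hS : LeftRev S) (hf : Act f K) (hM : MinInv f K) {c : ℝ}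
    (hc : ∀ v ∈ K, ∀ r < c, ¬ Q f K v r) {x v : E} (hx : x ∈ K) (hv : v ∈ K) {r : ℝ}
    (hr : r < c) (a : S) : ∃ t : S, r < ‖v - f (a * t) x‖ := by
  classical
  by_contra hcon
  push Not at hcon
  let P : E → ℝ → Prop := fun v r => ∃ a : S, ∀ t : S, ‖v - f (a * t) x‖ ≤ r
  have hP : P v r := ⟨a, hcon⟩
  have hmono : ∀ v ∈ K, ∀ r r', r ≤ r' → P v r → P v r' := by
    rintro v - r r' hrr ⟨a, ha⟩
    exact ⟨a, fun t => (ha t).trans hrr⟩
  have key : ∀ v ∈ K, ∀ ε > 0, P v (r + ε) := by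
    apply hM.spread hf.maps P _ hmono _ _ hv (fun ε hε => hmono v hv _ _ (by linarith) hP)
    · rintro v hv v' hv' r ⟨a, ha⟩
      refine ⟨a, fun t => ?_⟩
      calc ‖v' - f (a * t) x‖ = ‖(v - f (a * t) x) - (v - v')‖ := by congr 1; abel
        _ ≤ ‖v - f (a * t) x‖ + ‖v - v'‖ := norm_sub_le _ _
        _ ≤ r + ‖v - v'‖ := by linarith [ha t]
    · rintro v hv v' hv' r a b ha hb hab ⟨s, hs⟩ ⟨t, ht⟩
      obtain ⟨p, q, hpq⟩ := hS s t
      refine ⟨s * p, fun u => ?_⟩
      have h1 : ‖v - f (s * p * u) x‖ ≤ r := by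
        rw [mul_assoc]; exact hs _
      have h2 : ‖v' - f (s * p * u) x‖ ≤ r := by
        rw [hpq, mul_assoc]; exact ht _
      calc ‖a • v + b • v' - f (s * p * u) x‖
          = ‖a • (v - f (s * p * u) x) + b • (v' - f (s * p * u) x)‖ := by
            congr 1
            have : f (s * p * u) x = (a + b) • f (s * p * u) x := by rw [hab, one_smul]
            rw [smul_sub, smul_sub]
            nth_rewrite 1 [this]
            rw [add_smul]
            abel
        _ ≤ ‖a • (v - f (s * p * u) x)‖ + ‖b • (v' - f (s * p * u) x)‖ := norm_add_le _ _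
        _ = a * ‖v - f (s * p * u) x‖ + b * ‖v' - f (s * p * u) x‖ := by
            rw [norm_smul, norm_smul, Real.norm_of_nonneg ha, Real.norm_of_nonneg hb]
        _ ≤ a * r + b * r := by gcongr
        _ = r := by rw [← add_mul, hab, one_mul]
    · rintro s v hv r ⟨a, ha⟩
      refine ⟨s * a, fun t => ?_⟩
      rw [mul_assoc, hf.mul s (a * t) x hx]
      exact (hf.ne s v hv _ (hf.maps _ x hx)).trans (ha t)
  set r' := (r + c) / 2 with hr'
  have key' : ∀ v ∈ K, P v r' := by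
    intro v hv
    have := key v hv ((c - r) / 2) (by linarith)
    have e : r + (c - r) / 2 = r' := by rw [hr']; ring
    rwa [e] at this
  have hfin : ∀ F : Finset E, (∀ v ∈ F, v ∈ K) → ∃ a : S, ∀ v ∈ F, ∀ t, ‖v - f (a * t) x‖ ≤ r' := by
    intro F
    induction F using Finset.induction_on with
    | empty => intro _; exact ⟨1, fun v hv => absurd hv (Finset.notMem_empty v)⟩
    | insert w F hw ih =>
      intro hF
      obtain ⟨a, ha⟩ := ih fun v hv => hF v (Finset.mem_insert_of_mem hv)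
      obtain ⟨b, hb⟩ := key' w (hF w (Finset.mem_insert_self _ _))
      obtain ⟨p, q, hpq⟩ := hS a b
      refine ⟨a * p, fun v hv t => ?_⟩
      rcases Finset.mem_insert.1 hv with rfl | hv
      · rw [hpq, mul_assoc]; exact hb _
      · rw [mul_assoc]; exact ha v hv _
  obtain ⟨z, hzK, hz⟩ := exists_center hK hM.nonempty r' (by
    intro F hF
    obtain ⟨a, ha⟩ := hfin F hF
    refine ⟨f (a * 1) x, hf.maps _ x hx, fun v hv => ?_⟩
    rw [norm_sub_rev]
    exact ha v hv 1)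
  apply hc z hzK r' (by rw [hr']; linarith)
  refine ⟨1, fun u hu => ?_⟩
  rw [hf.one u hu]
  exact hz u hu

end

end Pool.Agent.LRFix
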