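import Pool.Agent.LibLRFix.GeoUncond

/-!
# Spaces with unconditional approximation
-/

open Filter Topology Set

namespace Pool.Agent.LRFix

variable {E : Type*} [NormedAddCommGroup E] [NormedSpace ℝ E]

lemma isCompactOperator_smulRight (φ : E →L[ℝ] ℝ) (e : E) :
    IsCompactOperator (φ.smulRight e : E →L[ℝ] E) := by
  refine ⟨(fun r : ℝ => r • e) '' Icc (-1) 1, isCompact_Icc.image (by fun_prop), ?_⟩
  have h1 : {x : E | |φ x| < 1} ∈ 𝓝 (0 : E) := by
    have h2 : Continuous fun x : E => |φ x| := by fun_prop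
    apply (isOpen_lt h2 continuous_const).mem_nhds
    simp
  refine mem_of_superset h1 fun x hx => ?_
  have hx' : |φ x| < 1 := hx
  exact ⟨φ x, ⟨(abs_lt.1 hx').1.le, (abs_lt.1 hx').2.le⟩, rfl⟩

lemma isCompactOperator_proj {β : Type*} {L : SummationFilter β}
    (b : GeneralSchauderBasis β ℝ E L) (A : Finset β) :
    IsCompactOperator (b.proj A : E →L[ℝ] E) := by
  classical
  unfold GeneralSchauderBasis.proj
  induction A using Finset.induction_on with
  | empty =>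
    rw [Finset.sum_empty]
    exact isCompactOperator_zero
  | insert i A hi ih =>
    rw [Finset.sum_insert hi]
    exact (isCompactOperator_smulRight _ _).add ih

/-- Spaces with an unconditional basis (possibly uncountable). -/
theorem uncondApprox_of_basis {β : Type*} (b : UnconditionalSchauderBasis β ℝ E) {lam : ℝ}
    (h : ∀ A : Finset β, ‖ContinuousLinearMap.id ℝ E - (2 : ℝ) • b.proj A‖ ≤ lam) :
    UncondApprox E lam := by
  classical
  intro ε hε F
  have hclose : ∀ G : Finset E, ∃ A₀ : Finset β, ∀ A, A₀ ⊆ A → ∀ x ∈ G, ‖b.proj A x - x‖ ≤ ε := by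
    intro G
    have h1 : ∀ᶠ A in (atTop : Filter (Finset β)), ∀ x ∈ G, ‖b.proj A x - x‖ ≤ ε := by
      rw [Filter.eventually_all_finset]
      intro x _
      have h2 : Tendsto (fun A => b.proj A x) atTop (𝓝 x) := by
        have := b.tendsto_proj x
        simpa using this
      have h3 := (tendsto_iff_norm_sub_tendsto_zero.1 h2).eventually (gt_mem_nhds hε)
      exact h3.mono fun A hA => hA.le
    obtain ⟨A₀, hA₀⟩ := eventually_atTop.1 h1
    exact ⟨A₀, fun A hA => hA₀ A hA⟩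
  obtain ⟨A₁, hA₁⟩ := hclose F
  refine ⟨b.proj A₁, isCompactOperator_proj b A₁, h A₁, hA₁ A₁ subset_rfl, fun G => ?_⟩
  obtain ⟨A₂, hA₂⟩ := hclose G
  refine ⟨b.proj (A₁ ∪ A₂), isCompactOperator_proj b _, h _, ?_, hA₂ _ Finset.subset_union_right⟩
  have h1 : b.proj (A₁ ∪ A₂) - b.proj A₁ = b.proj ((A₁ ∪ A₂) \ A₁) := by
    unfold GeneralSchauderBasis.proj
    rw [sub_eq_iff_eq_add, Finset.sum_sdiff Finset.subset_union_left]
  rw [h1]
  exact h _

/-- Spaces with the unconditional metric compact approximation property. -/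
theorem uncondApprox_of_umap (hE : ∀ δ > 0, ∀ F : Finset E, ∃ P : E →L[ℝ] E,
      IsCompactOperator P ∧ ‖ContinuousLinearMap.id ℝ E - (2 : ℝ) • P‖ ≤ 1 + δ ∧
      ∀ x ∈ F, ‖P x - x‖ ≤ δ) {lam : ℝ} (hlam : 1 < lam) : UncondApprox E lam := by
  classical
  intro ε hε F
  -- choice of δ
  set δ : ℝ := min (min ε 1) ((lam - 1) / 16) with hδ
  have hδ0 : 0 < δ := lt_min (lt_min hε one_pos) (by linarith)
  have hδ1 : δ ≤ 1 := (min_le_left _ _).trans (min_le_right _ _)
  have hδε : δ ≤ ε := (min_le_left _ _).trans (min_le_left _ _)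
  have hδl : 16 * δ ≤ lam - 1 := by
    have : δ ≤ (lam - 1) / 16 := min_le_right _ _
    linarith
  obtain ⟨T₁, hT₁c, hT₁n, hT₁F⟩ := hE δ hδ0 F
  refine ⟨T₁, hT₁c, hT₁n.trans (by linarith), fun x hx => (hT₁F x hx).trans hδε, fun G => ?_⟩
  -- a finite net of the image of the ball
  obtain ⟨C, hC, hCsub⟩ := hT₁c.image_closedBall_subset_compact (𝕜₁ := ℝ)
    (f := (T₁ : E →ₗ[ℝ] E)) 1
  obtain ⟨N, hNfin, hN⟩ := (Metric.totallyBounded_iff.1 hC.totallyBounded) δ hδ0
  obtain ⟨T₂, hT₂c, hT₂n, hT₂F⟩ := hE δ hδ0 (G ∪ hNfin.toFinset)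
  refine ⟨T₂, hT₂c, hT₂n.trans (by linarith), ?_, fun x hx =>
    (hT₂F x (Finset.mem_union_left _ hx)).trans hδε⟩
  have hT₂b : ∀ w, ‖T₂ w - w‖ ≤ 2 * ‖w‖ := by
    intro w
    have h1 := norm_id_sub_le hT₂n w
    rw [norm_sub_rev]
    refine h1.trans ?_
    gcongr
    linarith
  -- T₂ T₁ is close to T₁
  have hcomp : ∀ w, ‖w‖ ≤ 1 → ‖T₂ (T₁ w) - T₁ w‖ ≤ 3 * δ := by
    intro w hw
    have hwC : T₁ w ∈ C := hCsub ⟨w, by simpa using hw, rfl⟩
    have h1 := hN hwC
    rw [mem_iUnion₂] at h1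
    obtain ⟨e, he, hwe⟩ := h1
    rw [Metric.mem_ball, dist_eq_norm] at hwe
    have h2 := hT₂F e (Finset.mem_union_right _ (hNfin.mem_toFinset.2 he))
    have h3 := hT₂b (T₁ w - e)
    have h4 : T₂ (T₁ w) - T₁ w = (T₂ (T₁ w - e) - (T₁ w - e)) + (T₂ e - e) := by
      rw [map_sub]; abel
    rw [h4]
    refine (norm_add_le _ _).trans ?_
    linarith
  have hcomp' : ‖T₂.comp T₁ - T₁‖ ≤ 3 * δ := by
    refine ContinuousLinearMap.opNorm_le_of_unit_norm (by positivity) fun w hw => ?_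
    exact hcomp w hw.le
  have hid : ContinuousLinearMap.id ℝ E - (2 : ℝ) • (T₂ - T₁) =
      (ContinuousLinearMap.id ℝ E - (2 : ℝ) • T₂).comp (ContinuousLinearMap.id ℝ E - (2 : ℝ) • T₁)
      - (4 : ℝ) • (T₂.comp T₁ - T₁) := by
    ext w
    simp only [sub_apply, ContinuousLinearMap.id_apply,
      smul_apply, ContinuousLinearMap.comp_apply, map_sub, map_smul]
    module
  rw [hid]
  refine (norm_sub_le _ _).trans ?_
  have h1 : ‖(ContinuousLinearMap.id ℝ E - (2 : ℝ) • T₂).comp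
      (ContinuousLinearMap.id ℝ E - (2 : ℝ) • T₁)‖ ≤ (1 + δ) * (1 + δ) :=
    (ContinuousLinearMap.opNorm_comp_le _ _).trans (by gcongr)
  have h2 : ‖(4 : ℝ) • (T₂.comp T₁ - T₁)‖ ≤ 4 * (3 * δ) := by
    rw [norm_smul, Real.norm_of_nonneg (by norm_num)]
    gcongr
  nlinarith

end Pool.Agent.LRFix
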